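import Pool.Agent.H49.Look.Defs

/-!
# The lower bound: truncated mechanisms and fallbacks (problem MP_0f9109_lc)
-/

open Finset Function

namespace Pool.Agent.H49.Look2

open Pool.Agent.H49.Look

variable {n : ℕ} {K : Finset (Fin n)} {M : Mech n} {τ a : ℝ}

/-! ### Truncation: only values which are at least `τ` are served -/

/-- the truncated mechanism -/
noncomputable def trunc (τ : ℝ) (M : Mech n) : Mech n where
  x v i := if τ ≤ v i then M.x v i else 0
  p v i := if τ ≤ v i then M.p v i - M.p (update v i τ) i + τ * M.x (update v i τ) i else 0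

lemma trunc_util (h : Valid K M) (hτ : 0 < τ) {v : Fin n → ℝ} (hv : ∀ i, 0 < v i) {i : Fin n}
    (hi : i ∈ K) (hvi : τ ≤ v i) :
    0 ≤ M.x v i * v i - (M.p v i - M.p (update v i τ) i + τ * M.x (update v i τ) i) := by
  have h1 := (h v hv).2.2.2 i hi τ hτ
  have h2 := (h _ (update_pos hv i hτ)).1 i hi
  have h3 := mul_nonneg h2 (sub_nonneg.mpr hvi)
  nlinarith

lemma trunc_valid (h : Valid K M) (hτ : 0 < τ) : Valid K (trunc τ M) := by
  intro v hv
  refine ⟨?_, ?_, ?_, ?_⟩
  · intro i hi
    simp only [trunc]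
    split_ifs
    · exact (h v hv).1 i hi
    · exact le_rfl
  · refine le_trans (Finset.sum_le_sum fun i hi => ?_) (h v hv).2.1
    simp only [trunc]
    split_ifs
    · exact le_rfl
    · exact (h v hv).1 i hi
  · intro i hi
    simp only [trunc]
    split_ifs with hvi
    · exact trunc_util h hτ hv hi hvi
    · simp
  · intro i hi b hb
    simp only [trunc, update_idem, update_self]
    have h1 := (h v hv).2.2.2 i hi b hb
    have h2 := h.truth hv hi hτ hb
    have h3 := (h _ (update_pos hv i hb)).1 i hi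
    by_cases hb' : τ ≤ b
    · rw [if_pos hb', if_pos hb']
      by_cases hvi : τ ≤ v i
      · rw [if_pos hvi, if_pos hvi]
        linarith
      · rw [if_neg hvi, if_neg hvi]
        push Not at hvi
        nlinarith
    · rw [if_neg hb', if_neg hb']
      by_cases hvi : τ ≤ v i
      · rw [if_pos hvi, if_pos hvi]
        have := trunc_util h hτ hv hi hvi
        linarith
      · rw [if_neg hvi, if_neg hvi]

/-- a mechanism for `K` which serves only values at least `τ` -/
def IsTau (τ : ℝ) (K : Finset (Fin n)) (N : Mech n) : Prop :=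
  ∀ v : Fin n → ℝ, ∀ i ∈ K, v i < τ → N.x v i = 0 ∧ N.p v i = 0

lemma trunc_isTau : IsTau τ K (trunc τ M) := by
  intro v i _ hv
  simp [trunc, not_le.mpr hv]

lemma trunc_p_ge (h : Valid K M) (hτ : 0 < τ) {v : Fin n → ℝ} (hv : ∀ i, 0 < v i) {i : Fin n}
    (hi : i ∈ K) : (if τ ≤ v i then M.p v i else 0) ≤ (trunc τ M).p v i := by
  simp only [trunc]
  split_ifs
  · have h1 := h.p_le (update_pos hv i hτ) hi
    rw [update_self] at h1
    linarith
  · exact le_rfl

lemma trunc_p_nonneg (h : Valid K M) (hτ : 0 < τ) {v : Fin n → ℝ} (hv : ∀ i, 0 < v i)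
    {i : Fin n} (hi : i ∈ K) : 0 ≤ (trunc τ M).p v i := by
  simp only [trunc]
  split_ifs
  · have h1 := h.truth hv hi (b := τ) (c := v i) hτ (hv i)
    rw [update_eq_self] at h1
    have h2 := mul_nonneg ((h v hv).1 i hi) hτ.le
    linarith
  · exact le_rfl

/-! ### The posted price `τ` -/

open Classical in
/-- the item is sold at the price `τ` to the first bidder who accepts it -/
noncomputable def post (τ : ℝ) (K : Finset (Fin n)) : Mech n where
  x v i := if i ∈ K ∧ τ ≤ v i ∧ ∀ j ∈ K, j < i → v j < τ then 1 else 0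
  p v i := if i ∈ K ∧ τ ≤ v i ∧ ∀ j ∈ K, j < i → v j < τ then τ else 0

lemma post_unique {v : Fin n → ℝ} {i j : Fin n}
    (hi : i ∈ K ∧ τ ≤ v i ∧ ∀ j ∈ K, j < i → v j < τ)
    (hj : j ∈ K ∧ τ ≤ v j ∧ ∀ i ∈ K, i < j → v i < τ) : i = j := by
  rcases lt_trichotomy i j with h | h | h
  · linarith [hj.2.2 i hi.1 h, hi.2.1]
  · exact h
  · linarith [hi.2.2 j hj.1 h, hj.2.1]

lemma post_valid (hτ : 0 < τ) : Valid K (post τ K) := by
  classical
  intro v hv
  refine ⟨?_, ?_, ?_, ?_⟩
  · intro i hi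
    simp only [post]
    split_ifs <;> norm_num
  · simp only [post]
    by_cases h : ∃ i, i ∈ K ∧ τ ≤ v i ∧ ∀ j ∈ K, j < i → v j < τ
    · obtain ⟨i, hi⟩ := h
      rw [Finset.sum_eq_single i, if_pos hi]
      · intro j _ hj
        rw [if_neg fun h' => hj (post_unique h' hi)]
      · intro h'
        exact absurd hi.1 h'
    · rw [Finset.sum_eq_zero fun i _ => if_neg fun h' => h ⟨i, h'⟩]
      norm_num
  · intro i hi
    simp only [post]
    split_ifs with h
    · linarith [h.2.1]
    · simp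
  · intro i hi b hb
    simp only [post]
    have e : (∀ j ∈ K, j < i → update v i b j < τ) ↔ ∀ j ∈ K, j < i → v j < τ := by
      constructor
      · intro h j hj hji
        have := h j hj hji
        rwa [update_of_ne hji.ne] at this
      · intro h j hj hji
        rw [update_of_ne hji.ne]
        exact h j hj hji
    rw [update_self]
    by_cases hs : i ∈ K ∧ τ ≤ v i ∧ ∀ j ∈ K, j < i → v j < τ
    · rw [if_pos hs, if_pos hs]
      have := hs.2.1
      split_ifs <;> linarith
    · rw [if_neg hs, if_neg hs]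
      split_ifs with h
      · have h3 : v i < τ := by
          by_contra hcon
          push Not at hcon
          exact hs ⟨hi, hcon, e.mp h.2.2⟩
        linarith
      · simp

lemma post_isTau : IsTau τ K (post τ K) := by
  intro v i _ hv
  have : ¬ (i ∈ K ∧ τ ≤ v i ∧ ∀ j ∈ K, j < i → v j < τ) := fun h => by linarith [h.2.1]
  simp only [post]
  rw [if_neg this, if_neg this]
  simp

/-- the revenue of the posted price -/
lemma post_rev {v : Fin n → ℝ} (h : ∃ i ∈ K, τ ≤ v i) : ∑ i ∈ K, (post τ K).p v i = τ := by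
  classical
  have hne : (K.filter fun i => τ ≤ v i).Nonempty := by
    obtain ⟨i, hi, h⟩ := h
    exact ⟨i, Finset.mem_filter.mpr ⟨hi, h⟩⟩
  set i := (K.filter fun i => τ ≤ v i).min' hne with hi
  have h1 := Finset.mem_filter.mp ((K.filter fun i => τ ≤ v i).min'_mem hne)
  have hs : i ∈ K ∧ τ ≤ v i ∧ ∀ j ∈ K, j < i → v j < τ := by
    refine ⟨h1.1, h1.2, fun j hj hji => ?_⟩
    by_contra hcon
    push Not at hcon
    exact absurd ((K.filter fun i => τ ≤ v i).min'_le j (Finset.mem_filter.mpr ⟨hj, hcon⟩))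
      (not_le.mpr hji)
  simp only [post]
  rw [Finset.sum_eq_single i, if_pos hs]
  · intro j _ hj
    rw [if_neg fun h' => hj (post_unique h' hs)]
  · intro h'
    exact absurd hs.1 h'

/-! ### The fallback -/

open Classical in
/-- the mechanism `N` with the fallback `i₀` at the price `a`: if all the other bidders of `K` have
values below `τ`, the item is offered to `i₀` at the price `a` -/
noncomputable def fb (τ a : ℝ) (K : Finset (Fin n)) (N : Mech n) (i₀ : Fin n) : Mech n where
  x v i := if i = i₀ ∧ ∀ j ∈ K, j ≠ i₀ → v j < τ then (if a ≤ v i₀ then 1 else 0) else N.x v i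
  p v i := if i = i₀ ∧ ∀ j ∈ K, j ≠ i₀ → v j < τ then (if a ≤ v i₀ then a else 0) else N.p v i

lemma fb_valid {N : Mech n} (hN : Valid K N) (hT : IsTau τ K N) {i₀ : Fin n} (hi₀ : i₀ ∈ K) :
    Valid K (fb τ a K N i₀) := by
  classical
  intro v hv
  refine ⟨?_, ?_, ?_, ?_⟩
  · intro i hi
    simp only [fb]
    split_ifs
    · norm_num
    · norm_num
    · exact (hN v hv).1 i hi
  · by_cases h : ∀ j ∈ K, j ≠ i₀ → v j < τ
    · rw [Finset.sum_eq_single i₀]
      · simp only [fb]
        rw [if_pos ⟨trivial, h⟩]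
        split_ifs <;> norm_num
      · intro j hj hne
        simp only [fb]
        rw [if_neg fun h' => hne h'.1]
        exact (hT v j hj (h j hj hne)).1
      · intro h'
        exact absurd hi₀ h'
    · refine le_trans (le_of_eq (Finset.sum_congr rfl fun i _ => ?_)) (hN v hv).2.1
      simp only [fb]
      rw [if_neg fun h' => h h'.2]
  · intro i hi
    simp only [fb]
    by_cases h : i = i₀ ∧ ∀ j ∈ K, j ≠ i₀ → v j < τ
    · rw [if_pos h, if_pos h]
      obtain ⟨rfl, -⟩ := h
      split_ifs <;> linarith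
    · rw [if_neg h, if_neg h]
      exact (hN v hv).2.2.1 i hi
  · intro i hi b hb
    simp only [fb]
    by_cases h : i = i₀ ∧ ∀ j ∈ K, j ≠ i₀ → v j < τ
    · have h' : i = i₀ ∧ ∀ j ∈ K, j ≠ i₀ → update v i b j < τ := by
        refine ⟨h.1, fun j hj hne => ?_⟩
        rw [update_of_ne (by rw [h.1]; exact hne)]
        exact h.2 j hj hne
      rw [if_pos h, if_pos h, if_pos h', if_pos h']
      obtain ⟨rfl, -⟩ := h
      rw [update_self]
      split_ifs <;> linarith
    · have h' : ¬ (i = i₀ ∧ ∀ j ∈ K, j ≠ i₀ → update v i b j < τ) := by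
        rintro ⟨e, h2⟩
        refine h ⟨e, fun j hj hne => ?_⟩
        have := h2 j hj hne
        rwa [update_of_ne (by rw [e]; exact hne)] at this
      rw [if_neg h, if_neg h, if_neg h', if_neg h']
      exact (hN v hv).2.2.2 i hi b hb

/-- the revenue with a fallback -/
lemma fb_rev {N : Mech n} (hT : IsTau τ K N) {i₀ : Fin n} (hi₀ : i₀ ∈ K) {v : Fin n → ℝ}
    (ha : a ≤ v i₀) [Decidable (∀ j ∈ K, j ≠ i₀ → v j < τ)] :
    ∑ i ∈ K, (fb τ a K N i₀).p v i =
      if (∀ j ∈ K, j ≠ i₀ → v j < τ) then a else ∑ i ∈ K, N.p v i := by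
  classical
  by_cases h : ∀ j ∈ K, j ≠ i₀ → v j < τ
  · rw [if_pos h, Finset.sum_eq_single i₀]
    · simp only [fb]
      rw [if_pos ⟨trivial, h⟩, if_pos ha]
    · intro j hj hne
      simp only [fb]
      rw [if_neg fun h' => hne h'.1]
      exact (hT v j hj (h j hj hne)).2
    · intro h'
      exact absurd hi₀ h'
  · rw [if_neg h]
    refine Finset.sum_congr rfl fun i _ => ?_
    simp only [fb]
    rw [if_neg fun h' => h h'.2]

/-- the average over the fallbacks, for the two mechanisms together -/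
lemma two_mechs (h : Valid K M) (ha : 0 ≤ a) (haτ : a ≤ τ) (hτ : 0 < τ) {v : Fin n → ℝ}
    (hv : ∀ i, 0 < v i) (hva : ∀ i ∈ K, a ≤ v i) :
    K.card * a + (K.card - 1) * ((1 - a / τ) * ∑ i ∈ K, (trunc τ M).p v i) ≤
      (1 - a / τ) * ∑ i₀ ∈ K, ∑ i ∈ K, (fb τ a K (trunc τ M) i₀).p v i +
      a / τ * ∑ i₀ ∈ K, ∑ i ∈ K, (fb τ a K (post τ K) i₀).p v i := by
  classical
  have hl0 : 0 ≤ a / τ := div_nonneg ha hτ.le
  have hl1 : a / τ ≤ 1 := (div_le_one hτ).mpr haτ
  have hl : a / τ * τ = a := div_mul_cancel₀ a hτ.ne'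
  have e1 : ∑ i₀ ∈ K, ∑ i ∈ K, (fb τ a K (trunc τ M) i₀).p v i =
      ∑ i₀ ∈ K, if (∀ j ∈ K, j ≠ i₀ → v j < τ) then a else ∑ i ∈ K, (trunc τ M).p v i :=
    Finset.sum_congr rfl fun i₀ hi₀ => fb_rev trunc_isTau hi₀ (hva i₀ hi₀)
  have e2 : ∑ i₀ ∈ K, ∑ i ∈ K, (fb τ a K (post τ K) i₀).p v i =
      ∑ i₀ ∈ K, if (∀ j ∈ K, j ≠ i₀ → v j < τ) then a else ∑ i ∈ K, (post τ K).p v i :=
    Finset.sum_congr rfl fun i₀ hi₀ => fb_rev post_isTau hi₀ (hva i₀ hi₀)
  rw [e1, e2]
  have hP : 0 ≤ ∑ i ∈ K, (trunc τ M).p v i :=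
    Finset.sum_nonneg fun i hi => trunc_p_nonneg h hτ hv hi
  by_cases h0 : ∃ b ∈ K, τ ≤ v b
  · rw [post_rev h0]
    obtain ⟨b, hb, hvb⟩ := h0
    have hk : (1 : ℝ) ≤ K.card := by
      exact_mod_cast Finset.card_pos.mpr ⟨b, hb⟩
    set P := ∑ i ∈ K, (trunc τ M).p v i with hPdef
    by_cases h1 : ∀ j ∈ K, j ≠ b → v j < τ
    · have key : ∀ R : ℝ, ∑ i₀ ∈ K, (if (∀ j ∈ K, j ≠ i₀ → v j < τ) then a else R) =
          a + (K.card - 1) * R := by
        intro R
        have e3 : ∀ i₀ ∈ K, (if (∀ j ∈ K, j ≠ i₀ → v j < τ) then a else R) =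
            R + if i₀ = b then a - R else 0 := by
          intro i₀ hi₀
          by_cases hib : i₀ = b
          · subst hib
            rw [if_pos h1, if_pos rfl]
            ring
          · rw [if_neg, if_neg hib, add_zero]
            intro h'
            exact absurd (h' b hb (Ne.symm hib)) (not_lt.mpr hvb)
        rw [Finset.sum_congr rfl e3, Finset.sum_add_distrib, Finset.sum_const, nsmul_eq_mul,
          Finset.sum_ite_eq' K b, if_pos hb]
        ring
      rw [key, key]
      have : (1 - a / τ) * (a + (K.card - 1) * P) + a / τ * (a + (K.card - 1) * τ) =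
          K.card * a + (K.card - 1) * ((1 - a / τ) * P) := by
        linear_combination ((K.card : ℝ) - 1) * hl
      rw [this]
    · have key : ∀ R : ℝ, ∑ i₀ ∈ K, (if (∀ j ∈ K, j ≠ i₀ → v j < τ) then a else R) =
          K.card * R := by
        intro R
        push Not at h1
        obtain ⟨b', hb', hne, hvb'⟩ := h1
        have e3 : ∀ i₀ ∈ K, (if (∀ j ∈ K, j ≠ i₀ → v j < τ) then a else R) = R := by
          intro i₀ _
          rw [if_neg]
          intro h'
          by_cases hib : i₀ = b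
          · subst hib
            exact absurd (h' b' hb' hne) (not_lt.mpr hvb')
          · exact absurd (h' b hb (Ne.symm hib)) (not_lt.mpr hvb)
        rw [Finset.sum_congr rfl e3, Finset.sum_const, nsmul_eq_mul]
      rw [key, key]
      have h3 : (1 - a / τ) * (K.card * P) + a / τ * (K.card * τ) =
          K.card * a + K.card * ((1 - a / τ) * P) := by
        linear_combination (K.card : ℝ) * hl
      rw [h3]
      have h4 : 0 ≤ (1 - a / τ) * P := mul_nonneg (by linarith) hP
      nlinarith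
  · push Not at h0
    have hP0 : ∑ i ∈ K, (trunc τ M).p v i = 0 :=
      Finset.sum_eq_zero fun i hi => (trunc_isTau (K := K) (M := M) v i hi (h0 i hi)).2
    have key : ∀ R : ℝ, ∑ i₀ ∈ K, (if (∀ j ∈ K, j ≠ i₀ → v j < τ) then a else R) =
        K.card * a := by
      intro R
      rw [Finset.sum_congr rfl fun i₀ _ => if_pos fun j hj _ => h0 j hj, Finset.sum_const,
        nsmul_eq_mul]
    rw [key, key, hP0]
    apply le_of_eq
    ring

end Pool.Agent.H49.Look2
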