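import Mathlib

/-!
# The labels of the example (problem MP_0f9109_lc)
-/

open Finset Function

namespace Pool.Agent.H49.Look2

/-- the number of label values of one bidder -/
abbrev LL (d Q m : ℕ) : ℕ := Q * ((d + 1) * Q * (m + 1))

/-- the label vectors of the `d + 2` bidders -/
abbrev Lab (d Q m : ℕ) : Type := Fin (d + 2) → ZMod (LL d Q m)

instance (d Q m : ℕ) [NeZero Q] : NeZero (LL d Q m) := ⟨by
  have : Q ≠ 0 := NeZero.ne Q
  positivity⟩

variable {d Q m : ℕ} [NeZero Q]

/-- the value of a label -/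
noncomputable def lam (d Q m : ℕ) (a : ZMod (LL d Q m)) : ℝ :=
  1 + ((a.val : ℝ) + 1) / ((m + 1) * LL d Q m)

omit [NeZero Q] in
lemma LL_pos (d Q m : ℕ) [NeZero Q] : (0 : ℝ) < LL d Q m := by
  have : 0 < LL d Q m := Nat.pos_of_ne_zero (NeZero.ne _)
  exact_mod_cast this

lemma lam_gt (a : ZMod (LL d Q m)) : 1 < lam d Q m a := by
  have := LL_pos d Q m
  unfold lam
  have : (0 : ℝ) < ((a.val : ℝ) + 1) / ((m + 1) * LL d Q m) := by positivity
  linarith

lemma lam_pos (a : ZMod (LL d Q m)) : 0 < lam d Q m a := one_pos.trans (lam_gt a)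

lemma lam_le (a : ZMod (LL d Q m)) : lam d Q m a ≤ 1 + 1 / (m + 1) := by
  have h0 := LL_pos d Q m
  have h1 : (a.val : ℝ) + 1 ≤ LL d Q m := by exact_mod_cast ZMod.val_lt a
  have hm : (0 : ℝ) < (m : ℝ) + 1 := by positivity
  unfold lam
  have : ((a.val : ℝ) + 1) / ((m + 1) * LL d Q m) ≤ 1 / (m + 1) := by
    rw [div_le_div_iff₀ (by positivity) (by positivity)]
    nlinarith
  linarith

lemma lam_inj : Injective (lam d Q m) := by
  intro a b h
  have h0 := LL_pos d Q m
  unfold lam at h
  have h1 : (a.val : ℝ) + 1 = (b.val : ℝ) + 1 := by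
    have h2 := add_left_cancel h
    rwa [div_left_inj' (by positivity)] at h2
  apply ZMod.val_injective
  exact_mod_cast add_right_cancel h1

lemma one_lt_LL (hQ : 2 ≤ Q) : 1 < LL d Q m := by
  have : 1 ≤ (d + 1) * Q * (m + 1) := Nat.one_le_iff_ne_zero.mpr (by positivity)
  unfold LL
  nlinarith

lemma lam_succ (hQ : 2 ≤ Q) (a : ZMod (LL d Q m)) (ha : a ≠ -1) :
    lam d Q m a < lam d Q m (a + 1) := by
  have h0 := LL_pos d Q m
  have : Fact (1 < LL d Q m) := ⟨one_lt_LL hQ⟩
  have h1 : a.val + 1 < LL d Q m := by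
    rcases (Nat.succ_le_of_lt (ZMod.val_lt a)).lt_or_eq with h | h
    · exact h
    · exfalso
      apply ha
      have : ((a.val + 1 : ℕ) : ZMod (LL d Q m)) = 0 := by
        rw [show a.val + 1 = LL d Q m from h]; exact ZMod.natCast_self _
      rw [Nat.cast_add, ZMod.natCast_zmod_val, Nat.cast_one] at this
      exact eq_neg_of_add_eq_zero_left this
  have h2 : (a + 1).val = a.val + 1 := by
    rw [ZMod.val_add_of_lt (by rw [ZMod.val_one]; exact h1), ZMod.val_one]
  unfold lam
  rw [h2]
  have : ((a.val : ℝ) + 1) / ((m + 1) * LL d Q m) <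
      (((a.val + 1 : ℕ) : ℝ) + 1) / ((m + 1) * LL d Q m) := by
    apply div_lt_div_of_pos_right _ (by positivity)
    push_cast; linarith
  linarith

/-- the residue seen by the bidder `i`: the sum of the labels of the other bidders -/
def cls (i : Fin (d + 2)) (l : Lab d Q m) : ZMod Q :=
  ∑ j ∈ univ.erase i, ZMod.castHom (show Q ∣ LL d Q m from Dvd.intro _ rfl) (ZMod Q) (l j)

omit [NeZero Q] in
lemma cls_congr {i : Fin (d + 2)} {l l' : Lab d Q m} (h : ∀ j, j ≠ i → l j = l' j) :
    cls i l = cls i l' := by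
  unfold cls
  refine sum_congr rfl fun j hj => ?_
  rw [h j (mem_erase.mp hj).1]

omit [NeZero Q] in
lemma cls_shift (l : Lab d Q m) {i j : Fin (d + 2)} (hij : j ≠ i) :
    cls i (l + Pi.single j 1) = cls i l + 1 := by
  unfold cls
  simp only [Pi.add_apply, map_add, sum_add_distrib]
  congr 1
  rw [Finset.sum_eq_single j (fun b _ hb => by simp [hb])
    (fun h => absurd (mem_erase.mpr ⟨hij, mem_univ _⟩) h)]
  simp

/-- the sum over the label vectors of a given residue -/
noncomputable def S (i : Fin (d + 2)) (t : ZMod Q) (F : Lab d Q m → ℝ) : ℝ :=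
  ∑ l, if cls i l = t then F l else 0

/-- the number of label vectors -/
noncomputable def card (d Q m : ℕ) [NeZero Q] : ℝ := Fintype.card (Lab d Q m)

lemma card_pos : 0 < card d Q m := by
  unfold card
  exact_mod_cast Fintype.card_pos

lemma count_top (i : Fin (d + 2)) :
    ∑ l : Lab d Q m, (if l i = -1 then (1 : ℝ) else 0) = card d Q m / LL d Q m := by
  have h : ∀ a : ZMod (LL d Q m), ∑ l : Lab d Q m, (if l i = a then (1 : ℝ) else 0) =
      ∑ l : Lab d Q m, (if l i = -1 then (1 : ℝ) else 0) := by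
    intro a
    rw [← Equiv.sum_comp (Equiv.addRight (Pi.single i (a + 1) : Lab d Q m))]
    refine sum_congr rfl fun l _ => ?_
    have : (l i + (a + 1) = a) ↔ l i = -1 := by
      constructor
      · intro h; linear_combination h
      · intro h; linear_combination h
    simp [this]
  have h2 : ∑ a : ZMod (LL d Q m), ∑ l : Lab d Q m, (if l i = a then (1 : ℝ) else 0) =
      card d Q m := by
    rw [sum_comm]; simp [card]
  rw [eq_div_iff (LL_pos d Q m).ne', ← h2, sum_congr rfl fun a _ => h a]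
  simp [ZMod.card, mul_comm]

/-- one step of the residue -/
lemma S_step {i j : Fin (d + 2)} (hij : j ≠ i) (F : Lab d Q m → ℝ)
    (hF : ∀ l, F l ≤ F (l + Pi.single j 1) + if l j = -1 then 1 else 0) (t : ZMod Q) :
    S i t F ≤ S i (t + 1) F + card d Q m / LL d Q m := by
  rw [← count_top j]
  unfold S
  rw [← Equiv.sum_comp (Equiv.addRight (Pi.single j 1 : Lab d Q m))
      (fun l => if cls i l = t + 1 then F l else 0), ← sum_add_distrib]
  refine sum_le_sum fun l _ => ?_
  simp only [Equiv.coe_addRight, cls_shift l hij, add_left_inj]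
  by_cases h : cls i l = t
  · rw [if_pos h, if_pos h]
    exact hF l
  · rw [if_neg h, if_neg h]
    split_ifs <;> norm_num

lemma cyc (f : ZMod Q → ℝ) {e : ℝ} (he : 0 ≤ e) (h : ∀ t, f t ≤ f (t + 1) + e)
    (t t' : ZMod Q) : f t ≤ f t' + Q * e := by
  have h1 : ∀ n : ℕ, f t ≤ f (t + n) + n * e := by
    intro n
    induction n with
    | zero => simp
    | succ n ih =>
      have := h (t + n)
      push_cast
      rw [← add_assoc]
      linarith
  have h2 := h1 (t' - t).val
  have h3 : ((t' - t).val : ZMod Q) = t' - t := ZMod.natCast_zmod_val _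
  rw [h3, add_sub_cancel] at h2
  have h4 : ((t' - t).val : ℝ) ≤ Q := by
    have := (ZMod.val_lt (t' - t)).le
    exact_mod_cast this
  nlinarith

lemma S_add (i : Fin (d + 2)) (t : ZMod Q) (F G : Lab d Q m → ℝ) :
    S i t (fun l => F l + G l) = S i t F + S i t G := by
  unfold S
  rw [← sum_add_distrib]
  refine sum_congr rfl fun l _ => ?_
  split_ifs <;> simp

lemma S_const_mul (i : Fin (d + 2)) (t : ZMod Q) (c : ℝ) (F : Lab d Q m → ℝ) :
    S i t (fun l => c * F l) = c * S i t F := by
  unfold S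
  rw [mul_sum]
  refine sum_congr rfl fun l _ => ?_
  split_ifs <;> simp

lemma S_sum {ι : Type*} (s : Finset ι) (i : Fin (d + 2)) (t : ZMod Q)
    (F : ι → Lab d Q m → ℝ) :
    S i t (fun l => ∑ b ∈ s, F b l) = ∑ b ∈ s, S i t (F b) := by
  unfold S
  rw [sum_comm]
  refine sum_congr rfl fun l _ => ?_
  split_ifs <;> simp

lemma S_nonneg (i : Fin (d + 2)) (t : ZMod Q) {F : Lab d Q m → ℝ} (h : ∀ l, 0 ≤ F l) :
    0 ≤ S i t F := by
  unfold S
  refine sum_nonneg fun l _ => ?_
  split_ifs
  · exact h l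
  · exact le_rfl

lemma exists_other (i : Fin (d + 2)) : ∃ j : Fin (d + 2), j ≠ i := exists_ne i

/-- the residues are equally distributed -/
lemma S_one (i : Fin (d + 2)) (t : ZMod Q) :
    S i t (fun _ : Lab d Q m => (1 : ℝ)) = card d Q m / Q := by
  obtain ⟨j, hij⟩ := exists_other i
  have h : ∀ t : ZMod Q, S i t (fun _ : Lab d Q m => (1 : ℝ)) ≤
      S i (t + 1) (fun _ : Lab d Q m => (1 : ℝ)) + 0 := by
    intro t
    rw [add_zero]
    unfold S
    rw [← Equiv.sum_comp (Equiv.addRight (Pi.single j 1 : Lab d Q m))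
      (fun l => if cls i l = t + 1 then (1 : ℝ) else 0)]
    refine sum_le_sum fun l _ => ?_
    simp only [Equiv.coe_addRight, cls_shift l hij, add_left_inj]
    exact le_rfl
  have h1 : ∀ t' : ZMod Q, S i t' (fun _ : Lab d Q m => (1 : ℝ)) =
      S i t (fun _ : Lab d Q m => (1 : ℝ)) := by
    intro t'
    have a1 := cyc _ le_rfl h t t'
    have a2 := cyc _ le_rfl h t' t
    linarith
  have h2 : ∑ t' : ZMod Q, S i t' (fun _ : Lab d Q m => (1 : ℝ)) = card d Q m := by
    unfold S
    rw [sum_comm]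
    simp [card]
  rw [sum_congr rfl fun t' _ => h1 t'] at h2
  rw [sum_const, card_univ, ZMod.card, nsmul_eq_mul] at h2
  have hQ : (0 : ℝ) < Q := by exact_mod_cast Nat.pos_of_ne_zero (NeZero.ne Q)
  rw [eq_div_iff hQ.ne']
  linarith

/-- the sum over all label vectors, residue by residue -/
lemma sum_classes (i : Fin (d + 2)) (F : ZMod Q → Lab d Q m → ℝ) :
    ∑ l, F (cls i l) l = ∑ t : ZMod Q, S i t (F t) := by
  unfold S
  rw [sum_comm]
  refine sum_congr rfl fun l _ => ?_
  simp

end Pool.Agent.H49.Look2
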