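import Pool.Agent.H49.Look2.Upper

/-!
# The optimal revenue of the example (problem MP_0f9109_lc)
-/

open Finset Function

namespace Pool.Agent.H49.Look2

open Pool.Agent.H49.Look

variable {d Q m N : ℕ} [NeZero Q] {q : ℝ} {φ : ZMod Q → ℕ}

/-! ### The mechanism -/

section star

variable (m N) (q) (φ)

/-- the reports of the bidders other than `i` (and the last one) are labels -/
def ok (i : Fin (d + 2)) (w : Fin (d + 3) → ℝ) : Prop :=
  ∃ g : Lab d Q m, ∀ j, j ≠ i → w j.castSucc = lam d Q m (g j)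

open Classical in
/-- the price offered to the bidder `i` -/
noncomputable def price (i : Fin (d + 2)) (w : Fin (d + 3) → ℝ) : ℝ :=
  if h : ok (Q := Q) m i w then V q N (φ (cls i h.choose)) else 0

/-- the bidder `i` gets an offer and accepts it -/
def sold (i : Fin (d + 2)) (w : Fin (d + 3) → ℝ) : Prop :=
  ok (Q := Q) m i w ∧ price m N q φ i w ≤ w i.castSucc

open Classical in
/-- the allocation -/
noncomputable def starX (w : Fin (d + 3) → ℝ) : Fin (d + 3) → ℝ :=
  Fin.snoc (α := fun _ => ℝ) (fun i => if sold m N q φ i w then 1 else 0)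
    (if (∀ i, ¬ sold m N q φ i w) ∧ 1 ≤ w (Fin.last (d + 2)) then 1 else 0)

open Classical in
/-- the payments -/
noncomputable def starP (w : Fin (d + 3) → ℝ) : Fin (d + 3) → ℝ :=
  Fin.snoc (α := fun _ => ℝ) (fun i => if sold m N q φ i w then price m N q φ i w else 0)
    (if (∀ i, ¬ sold m N q φ i w) ∧ 1 ≤ w (Fin.last (d + 2)) then 1 else 0)

/-- the mechanism -/
noncomputable def Star : Mech (d + 3) where
  x := starX m N q φ
  p := starP m N q φ

variable {m N} {q} {φ}

lemma price_eq {i : Fin (d + 2)} {w : Fin (d + 3) → ℝ} {g : Lab d Q m}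
    (hg : ∀ j, j ≠ i → w j.castSucc = lam d Q m (g j)) :
    price m N q φ i w = V q N (φ (cls i g)) := by
  have h : ok (Q := Q) m i w := ⟨g, hg⟩
  unfold price
  rw [dif_pos h]
  congr 2
  refine cls_congr fun j hj => lam_inj ?_
  rw [← h.choose_spec j hj, hg j hj]

lemma ok_congr {i : Fin (d + 2)} {w w' : Fin (d + 3) → ℝ}
    (h : ∀ j : Fin (d + 2), j ≠ i → w j.castSucc = w' j.castSucc) :
    ok (Q := Q) m i w ↔ ok (Q := Q) m i w' := by
  constructor
  · rintro ⟨g, hg⟩
    exact ⟨g, fun j hj => by rw [← h j hj, hg j hj]⟩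
  · rintro ⟨g, hg⟩
    exact ⟨g, fun j hj => by rw [h j hj, hg j hj]⟩

lemma price_congr {i : Fin (d + 2)} {w w' : Fin (d + 3) → ℝ}
    (h : ∀ j : Fin (d + 2), j ≠ i → w j.castSucc = w' j.castSucc) :
    price m N q φ i w = price m N q φ i w' := by
  by_cases hw : ok (Q := Q) m i w
  · obtain ⟨g, hg⟩ := hw
    rw [price_eq hg, price_eq (g := g) fun j hj => by rw [← h j hj, hg j hj]]
  · have hw' : ¬ ok (Q := Q) m i w' := fun h' => hw ((ok_congr h).mpr h')
    unfold price
    rw [dif_neg hw, dif_neg hw']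

lemma update_off {i : Fin (d + 2)} (w : Fin (d + 3) → ℝ) (b : ℝ) :
    ∀ j : Fin (d + 2), j ≠ i → update w i.castSucc b j.castSucc = w j.castSucc :=
  fun j hj => update_of_ne (fun e => hj (Fin.castSucc_injective _ e)) _ _

lemma update_last_off {i : Fin (d + 2)} (w : Fin (d + 3) → ℝ) (b : ℝ) :
    ∀ j : Fin (d + 2), j ≠ i → update w (Fin.last (d + 2)) b j.castSucc = w j.castSucc :=
  fun j _ => update_of_ne (Fin.castSucc_ne_last j) _ _

lemma sold_update_last (i : Fin (d + 2)) (w : Fin (d + 3) → ℝ) (b : ℝ) :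
    sold m N q φ i (update w (Fin.last (d + 2)) b) ↔ sold m N q φ i w := by
  unfold sold
  rw [ok_congr (update_last_off w b), price_congr (update_last_off w b),
    update_of_ne (Fin.castSucc_ne_last i)]

/-- at most one bidder is sold the item -/
lemma sold_unique (h0 : 0 < q) (h1 : q < 1) (hφ : ∀ r, φ r ≤ N)
    (hm : 1 + 1 / ((m : ℝ) + 1) < cc q N) {i j : Fin (d + 2)} {w : Fin (d + 3) → ℝ}
    (hi : sold m N q φ i w) (hj : sold m N q φ j w) : i = j := by
  by_contra hne
  obtain ⟨⟨g, hg⟩, h2⟩ := hi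
  obtain ⟨⟨g', hg'⟩, -⟩ := hj
  rw [price_eq hg, hg' i hne] at h2
  have h3 := lam_le (g' i)
  have h4 := cc_le_V (N := N) h0 h1 (hφ (cls i g))
  linarith

lemma Star_valid (h0 : 0 < q) (h1 : q < 1) (hφ : ∀ r, φ r ≤ N)
    (hm : 1 + 1 / ((m : ℝ) + 1) < cc q N) : Valid univ (Star (d := d) m N q φ) := by
  classical
  intro w hw
  have ex : ∀ (w : Fin (d + 3) → ℝ) (i : Fin (d + 2)),
      (Star (d := d) m N q φ).x w i.castSucc = if sold m N q φ i w then 1 else 0 := by
    intro w i
    simp [Star, starX]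
  have ep : ∀ (w : Fin (d + 3) → ℝ) (i : Fin (d + 2)), (Star (d := d) m N q φ).p w i.castSucc =
      if sold m N q φ i w then price m N q φ i w else 0 := by
    intro w i
    simp [Star, starP]
  have exl : ∀ (w : Fin (d + 3) → ℝ), (Star (d := d) m N q φ).x w (Fin.last (d + 2)) =
      if (∀ i, ¬ sold m N q φ i w) ∧ 1 ≤ w (Fin.last (d + 2)) then 1 else 0 := by
    intro w
    simp [Star, starX]
  have epl : ∀ (w : Fin (d + 3) → ℝ), (Star (d := d) m N q φ).p w (Fin.last (d + 2)) =
      if (∀ i, ¬ sold m N q φ i w) ∧ 1 ≤ w (Fin.last (d + 2)) then 1 else 0 := by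
    intro w
    simp [Star, starP]
  refine ⟨?_, ?_, ?_, ?_⟩
  · intro b _
    rcases cases_bidder b with ⟨i, rfl⟩ | rfl
    · rw [ex]; split_ifs <;> norm_num
    · rw [exl]; split_ifs <;> norm_num
  · rw [Fin.sum_univ_castSucc]
    simp only [ex, exl]
    by_cases h : ∃ i, sold m N q φ i w
    · obtain ⟨i, hi⟩ := h
      rw [Finset.sum_eq_single i, if_pos hi, if_neg (fun h' => h'.1 i hi), add_zero]
      · intro j _ hj
        rw [if_neg fun h' => hj (sold_unique h0 h1 hφ hm h' hi)]
      · intro h'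
        exact absurd (mem_univ i) h'
    · push Not at h
      rw [Finset.sum_eq_zero fun i _ => if_neg (h i), zero_add]
      split_ifs <;> norm_num
  · intro b _
    rcases cases_bidder b with ⟨i, rfl⟩ | rfl
    · rw [ex, ep]
      split_ifs with h
      · have := h.2
        linarith
      · simp
    · rw [exl, epl]
      split_ifs with h
      · linarith [h.2]
      · simp
  · intro b _ c hc
    rcases cases_bidder b with ⟨i, rfl⟩ | rfl
    · rw [ex, ep, ex, ep]
      have e1 : price m N q φ i (update w i.castSucc c) = price m N q φ i w :=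
        price_congr (update_off w c)
      have e2 : ok (Q := Q) m i (update w i.castSucc c) ↔ ok (Q := Q) m i w :=
        ok_congr (update_off w c)
      by_cases hs : sold m N q φ i w
      · rw [if_pos hs, if_pos hs]
        have := hs.2
        split_ifs <;> linarith
      · rw [if_neg hs, if_neg hs]
        split_ifs with h
        · have h2 : ok (Q := Q) m i w := e2.mp h.1
          have h3 : w i.castSucc < price m N q φ i w := by
            by_contra hcon
            push Not at hcon
            exact hs ⟨h2, hcon⟩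
          rw [e1]
          linarith
        · simp
    · rw [exl, epl, exl, epl, update_self]
      have e3 : (∀ i, ¬ sold m N q φ i (update w (Fin.last (d + 2)) c)) ↔
          ∀ i, ¬ sold m N q φ i w := by
        constructor
        · intro h i hi
          exact h i ((sold_update_last i w c).mpr hi)
        · intro h i hi
          exact h i ((sold_update_last i w c).mp hi)
      by_cases hs : (∀ i, ¬ sold m N q φ i w) ∧ 1 ≤ w (Fin.last (d + 2))
      · rw [if_pos hs]
        have := hs.2
        split_ifs <;> linarith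
      · rw [if_neg hs]
        split_ifs with h
        · have h3 : w (Fin.last (d + 2)) < 1 := by
            by_contra hcon
            push Not at hcon
            exact hs ⟨e3.mp h.1, hcon⟩
          linarith
        · simp

/-- the revenue of the mechanism -/
lemma Star_rev (w : Fin (d + 3) → ℝ) {i : Fin (d + 2)} (hi : ∀ j, j ≠ i → ¬ sold m N q φ j w)
    (hw : w (Fin.last (d + 2)) = 1) [Decidable (sold m N q φ i w)] :
    ∑ b, (Star (d := d) m N q φ).p w b =
      if sold m N q φ i w then price m N q φ i w else 1 := by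
  classical
  rw [Fin.sum_univ_castSucc]
  have ep : ∀ (i : Fin (d + 2)), (Star (d := d) m N q φ).p w i.castSucc =
      if sold m N q φ i w then price m N q φ i w else 0 := by
    intro i
    simp [Star, starP]
  have epl : (Star (d := d) m N q φ).p w (Fin.last (d + 2)) =
      if (∀ i, ¬ sold m N q φ i w) ∧ 1 ≤ w (Fin.last (d + 2)) then 1 else 0 := by
    simp [Star, starP]
  simp only [ep, epl]
  rw [Finset.sum_eq_single i]
  · by_cases h : sold m N q φ i w
    · rw [if_pos h, if_neg (fun h' => h'.1 i h), if_pos h, add_zero]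
    · rw [if_neg h, if_pos, if_neg h, zero_add]
      refine ⟨fun j => ?_, hw.ge⟩
      rcases eq_or_ne j i with rfl | hj
      · exact h
      · exact hi j hj
  · intro j _ hj
    rw [if_neg (hi j hj)]
  · intro h'
    exact absurd (mem_univ i) h'

end star

/-- the revenue at a profile without a rich bidder -/
lemma rev_poor (h0 : 0 < q) (h1 : q < 1) (hφ : ∀ r, φ r ≤ N)
    (hm : 1 + 1 / ((m : ℝ) + 1) < cc q N) (l : Lab d Q m) :
    ∑ b, (Star (d := d) m N q φ).p (poor l) b = 1 := by
  classical
  have hn : ∀ j, ¬ sold m N q φ j (poor l) := by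
    rintro j ⟨-, h⟩
    rw [price_eq (g := l) fun b _ => poor_cast l b, poor_cast] at h
    have h3 := lam_le (l j)
    have h4 := cc_le_V (N := N) h0 h1 (hφ (cls j l))
    linarith
  rw [Star_rev (poor l) (i := 0) (fun j _ => hn j) (poor_last l), if_neg (hn 0)]

/-- the revenue at a profile with a rich bidder -/
lemma rev_rich (h0 : 0 < q) (h1 : q < 1)
    (hm : 1 + 1 / ((m : ℝ) + 1) < cc q N) (i : Fin (d + 2)) {u : ℕ} (hu : u ≤ N)
    (l : Lab d Q m) :
    ∑ b, (Star (d := d) m N q φ).p (rich i (V q N u) l) b =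
      if V q N (φ (cls i l)) ≤ V q N u then V q N (φ (cls i l)) else 1 := by
  classical
  have hp : price m N q φ i (rich i (V q N u) l) = V q N (φ (cls i l)) :=
    price_eq fun b hb => rich_ne hb _ l
  have hn : ∀ j, j ≠ i → ¬ sold m N q φ j (rich i (V q N u) l) := by
    rintro j hj ⟨⟨g, hg⟩, -⟩
    have h2 := hg i hj.symm
    rw [rich_self] at h2
    have h3 := lam_le (g i)
    have h4 := cc_le_V (N := N) h0 h1 hu
    linarith
  rw [Star_rev _ hn (rich_last _ _ _), hp]
  have hs : sold m N q φ i (rich i (V q N u) l) ↔ V q N (φ (cls i l)) ≤ V q N u := by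
    unfold sold
    rw [hp, rich_self]
    exact ⟨fun h => h.2, fun h => ⟨⟨l, fun b hb => rich_ne hb _ l⟩, h⟩⟩
  simp only [hs]

lemma pr_rev (h0 : 0 < q) (h1 : q < 1) {t : ℕ} (ht : t ≤ N) :
    ∑ i ∈ range (N + 1), pr q N t i * (if V q N t ≤ V q N i then V q N t else 1) =
      1 + cc q N * (1 - s q N t) := by
  rw [pr_sum ht, if_pos le_rfl, mul_assoc, s_mul_V h0 h1 ht, mul_one]
  have h2 : ∑ i ∈ range t, cc q N * (s q N i - s q N (i + 1)) *
      (if V q N t ≤ V q N i then V q N t else 1) =
      ∑ i ∈ range t, cc q N * (s q N i - s q N (i + 1)) := by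
    refine Finset.sum_congr rfl fun i hi => ?_
    rw [if_neg (not_le.mpr (V_lt h0 h1 (Finset.mem_range.mp hi) ht)), mul_one]
  rw [h2, ← Finset.mul_sum, Finset.sum_range_sub']
  have := cc_s_zero (N := N) h0 h1
  linear_combination this

lemma OPT_ge (h0 : 0 < q) (h1 : q < 1) (hφ : ∀ r, φ r ≤ N)
    (hsum : ∀ G : ℕ → ℝ, ∑ r, G (φ r) = Q * ∑ t ∈ range (N + 1), mw q N t * G t)
    (hm : 1 + 1 / ((m : ℝ) + 1) < cc q N) :
    beta d N q * ((cc q N - 1) + (d + 2) * (1 + cc q N * aa q N * (1 + N * (1 - q)))) ≤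
      OPT (DD d Q m N q φ) := by
  refine le_trans (le_of_eq ?_) (le_OPT _ (DD_isDist h0 h1 hφ)
    (Star_valid (d := d) (Q := Q) (m := m) (N := N) (q := q) (φ := φ) h0 h1 hφ hm))
  rw [DD_expect]
  have h2 : ∀ l : Lab d Q m, wP d Q m N q * ∑ b, (Star (d := d) m N q φ).p (poor l) b +
      ∑ i : Fin (d + 2), ∑ u ∈ range (N + 1), wR N q φ i u l *
        ∑ b, (Star (d := d) m N q φ).p (rich i (V q N u) l) b =
      wP d Q m N q + ∑ i : Fin (d + 2), beta d N q / card d Q m *
        (1 + cc q N * (1 - s q N (φ (cls i l)))) := by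
    intro l
    rw [rev_poor h0 h1 hφ hm, mul_one]
    congr 1
    refine Finset.sum_congr rfl fun i _ => ?_
    rw [← pr_rev h0 h1 (hφ (cls i l)), Finset.mul_sum]
    refine Finset.sum_congr rfl fun u hu => ?_
    rw [rev_rich h0 h1 hm i (by have := Finset.mem_range.mp hu; omega)]
    unfold wR
    ring
  rw [Finset.sum_congr rfl fun l _ => h2 l, Finset.sum_add_distrib, Finset.sum_comm]
  have h3 : ∀ i : Fin (d + 2), ∑ l : Lab d Q m, beta d N q / card d Q m *
      (1 + cc q N * (1 - s q N (φ (cls i l)))) =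
      beta d N q * (1 + cc q N * aa q N * (1 + N * (1 - q))) := by
    intro i
    rw [← Finset.mul_sum]
    have h4 := sum_classes i (fun (r : ZMod Q) (_ : Lab d Q m) =>
      (1 + cc q N * (1 - s q N (φ r))))
    rw [h4]
    have h5 : ∀ r : ZMod Q, S i r (fun _ : Lab d Q m => (1 + cc q N * (1 - s q N (φ r)))) =
        (1 + cc q N * (1 - s q N (φ r))) * (card d Q m / Q) := by
      intro r
      have h6 := S_const_mul i r (1 + cc q N * (1 - s q N (φ r))) (fun _ : Lab d Q m => (1 : ℝ))
      simp only [mul_one] at h6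
      rw [h6, S_one]
    rw [Finset.sum_congr rfl fun r _ => h5 r, ← Finset.sum_mul,
      hsum (fun t => 1 + cc q N * (1 - s q N t)), opt_total h0]
    have hcard := card_pos (d := d) (Q := Q) (m := m)
    have hQ : (0 : ℝ) < Q := by exact_mod_cast Nat.pos_of_ne_zero (NeZero.ne Q)
    field_simp
  rw [Finset.sum_congr rfl fun i _ => h3 i, Finset.sum_const, Finset.sum_const,
    Finset.card_univ, Finset.card_univ, Fintype.card_fin, nsmul_eq_mul, nsmul_eq_mul]
  have a8 : (Fintype.card (Lab d Q m) : ℝ) = card d Q m := rfl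
  rw [a8]
  have hcard := card_pos (d := d) (Q := Q) (m := m)
  unfold wP
  push_cast
  field_simp

end Pool.Agent.H49.Look2
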