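import Pool.Agent.H49.Look2.Rev
import Pool.Agent.H49.Look2.Opt

/-!
# The upper bound `e ^ (1 - 1 / k) / (1 + e ^ (1 - 1 / k))` (problem MP_0f9109_lc)
-/

open Finset Function

namespace Pool.Agent.H49.Look2

open Pool.Agent.H49.Look

lemma look_le {d Q m N : ℕ} [NeZero Q] {q : ℝ} {φ : ZMod Q → ℕ}
    (h0 : 0 < q) (h1 : q < 1) (hQ2 : 2 ≤ Q) (hφ : ∀ r, φ r ≤ N)
    (hsum : ∀ G : ℕ → ℝ, ∑ r, G (φ r) = Q * ∑ t ∈ range (N + 1), mw q N t * G t)
    {M : Finset (Fin (d + 3)) → Mech (d + 3)}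
    (hM : IsLookahead (d + 2) (DD d Q m N q φ) M) :
    lookRev (d + 2) (DD d Q m N q φ) M ≤ beta d N q * ((cc q N - 1) * (1 / (m + 1)) +
        (d + 2) * (cc q N + (cc q N + 3) * (1 / (m + 1)))) := by
  obtain ⟨v₀, hv₀⟩ := DD_nonempty (d := d) (m := m) h0 h1 hφ
  have hV : Valid (KK d) (M (KK d)) := by
    have := (hM v₀ hv₀).1
    rwa [top_DD h0 h1 hv₀] at this
  refine le_trans (le_of_eq ?_) (rev_le h0 h1 hQ2 hφ hsum hV)
  refine Finset.sum_congr rfl fun v hv => ?_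
  rw [top_DD h0 h1 hv]

/-- the bound on the ratio -/
noncomputable def bnd (d N : ℕ) : ℝ :=
  ((cc (qq d N) N - 1) * (1 / ((N : ℝ) + 1)) +
    (d + 2) * (cc (qq d N) N + (cc (qq d N) N + 3) * (1 / ((N : ℝ) + 1)))) /
  ((cc (qq d N) N - 1) + (d + 2) * (1 + cc (qq d N) N * aa (qq d N) N *
    (1 + (d + 1) / (d + 2))))

lemma example_exists (d N : ℕ) (hN : 1 ≤ N)
    (hm : 1 + 1 / ((N : ℝ) + 1) < cc (qq d N) N) :
    ∃ D : (Fin (d + 3) → ℝ) →₀ ℝ, IsDist D ∧ 0 < OPT D ∧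
      (∃ M, IsLookahead (d + 2) D M) ∧
      ∀ M, IsLookahead (d + 2) D M → lookRev (d + 2) D M / OPT D ≤ bnd d N := by
  have h0 := qq_pos (d := d) hN
  have h1 := qq_lt (d := d) hN
  have hA := AA_pos (d := d) hN
  have : NeZero (AA d N ^ N) := ⟨(pow_pos hA N).ne'⟩
  have hQ2 : 2 ≤ AA d N ^ N := by
    have h2 : 2 ≤ AA d N := by unfold AA; nlinarith
    calc 2 ≤ AA d N := h2
      _ = AA d N ^ 1 := (pow_one _).symm
      _ ≤ AA d N ^ N := Nat.pow_le_pow_right hA hN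
  obtain ⟨φ, hφ, hs⟩ := exists_phi (d := d) hN
  have hsum : ∀ G : ℕ → ℝ, ∑ r, G (φ r) =
      ((AA d N ^ N : ℕ) : ℝ) * ∑ t ∈ range (N + 1), mw (qq d N) N t * G t := by
    intro G
    rw [hs G, Finset.mul_sum]
    refine Finset.sum_congr rfl fun t ht => ?_
    rw [nn_eq hN (by have := Finset.mem_range.mp ht; omega)]
    push_cast
    ring
  have hb := beta_pos (d := d) (N := N) h0 h1
  have hopt := OPT_ge (d := d) (m := N) h0 h1 hφ hsum hm
  rw [N_mul hN] at hopt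
  have hc := cc_gt (N := N) h0 h1
  have ha := aa_pos (N := N) h0
  have hden : 0 < (cc (qq d N) N - 1) + (d + 2) * (1 + cc (qq d N) N * aa (qq d N) N *
      (1 + ((d : ℝ) + 1) / (d + 2))) := by
    have h3 : 0 < cc (qq d N) N - 1 := by linarith
    have h4 : 0 < cc (qq d N) N := by linarith
    positivity
  refine ⟨DD d (AA d N ^ N) N N (qq d N) φ, DD_isDist h0 h1 hφ,
    (mul_pos hb hden).trans_le hopt, exists_look_DD h0 h1 hφ, fun M hM => ?_⟩
  have hl := look_le h0 h1 hQ2 hφ hsum hM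
  have hnum : 0 ≤ (cc (qq d N) N - 1) * (1 / ((N : ℝ) + 1)) +
    (d + 2) * (cc (qq d N) N + (cc (qq d N) N + 3) * (1 / ((N : ℝ) + 1))) := by
    have h3 : 0 < cc (qq d N) N - 1 := by linarith
    have h4 : 0 < cc (qq d N) N := by linarith
    positivity
  refine (div_le_div₀ (mul_nonneg hb.le hnum) hl (mul_pos hb hden) hopt).trans (le_of_eq ?_)
  unfold bnd
  rw [mul_div_mul_left _ _ hb.ne']

/-- the exponent -/
noncomputable def al (d : ℕ) : ℝ := ((d : ℝ) + 1) / (d + 2)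

lemma al_pos (d : ℕ) : 0 < al d := by unfold al; positivity

lemma exp_al_lt (d : ℕ) : Real.exp (-al d) < 1 := by
  rw [Real.exp_lt_one_iff]
  linarith [al_pos d]

lemma tendsto_cc (d : ℕ) : Filter.Tendsto (fun N => cc (qq d N) N) Filter.atTop
    (nhds (1 / (1 - Real.exp (-al d)))) := by
  have h : Filter.Tendsto (fun N => 1 - aa (qq d N) N) Filter.atTop
      (nhds (1 - Real.exp (-al d))) := (tendsto_aa d).const_sub 1
  exact (tendsto_const_nhds (x := (1 : ℝ))).div h (by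
    have := exp_al_lt d
    linarith)

lemma limit_value (d : ℕ) :
    ((1 / (1 - Real.exp (-al d)) - 1) * 0 +
      (d + 2) * (1 / (1 - Real.exp (-al d)) + (1 / (1 - Real.exp (-al d)) + 3) * 0)) /
    ((1 / (1 - Real.exp (-al d)) - 1) + (d + 2) * (1 + 1 / (1 - Real.exp (-al d)) *
      Real.exp (-al d) * (1 + (d + 1) / (d + 2)))) =
    Real.exp (al d) / (1 + Real.exp (al d)) := by
  have h1 := exp_al_lt d
  have h2 := Real.exp_pos (-al d)
  have h3 : Real.exp (al d) = 1 / Real.exp (-al d) := by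
    rw [Real.exp_neg, one_div, inv_inv]
  have h4 : 0 < 1 - Real.exp (-al d) := by linarith
  have h6 : (0 : ℝ) < (d : ℝ) + 2 := by positivity
  rw [h3, mul_zero, mul_zero, zero_add, add_zero]
  set z := Real.exp (-al d) with hz
  have h5 : (1 / (1 - z) - 1) + ((d : ℝ) + 2) * (1 + 1 / (1 - z) * z *
      (1 + ((d : ℝ) + 1) / (d + 2))) = (d + 2) * ((1 + z) / (1 - z)) := by
    field_simp
    ring
  rw [h5]
  field_simp
  ring

lemma tendsto_bnd (d : ℕ) : Filter.Tendsto (bnd d) Filter.atTop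
    (nhds (Real.exp (al d) / (1 + Real.exp (al d)))) := by
  rw [← limit_value]
  have h1 : Filter.Tendsto (fun N : ℕ => 1 / ((N : ℝ) + 1)) Filter.atTop (nhds 0) :=
    tendsto_one_div_add_atTop_nhds_zero_nat
  have hc := tendsto_cc d
  have ha : Filter.Tendsto (fun N => aa (qq d N) N) Filter.atTop (nhds (Real.exp (-al d))) :=
    tendsto_aa d
  refine Filter.Tendsto.div ?_ ?_ ?_
  · exact ((hc.sub_const 1).mul h1).add ((hc.add ((hc.add_const 3).mul h1)).const_mul _)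
  · exact (hc.sub_const 1).add ((((hc.mul ha).mul_const _).const_add 1).const_mul _)
  · have h2 := Real.exp_pos (-al d)
    have h3 : 0 < 1 - Real.exp (-al d) := by linarith [exp_al_lt d]
    have h4 : 0 ≤ 1 / (1 - Real.exp (-al d)) - 1 := by
      rw [sub_nonneg, le_div_iff₀ h3]
      linarith
    have : 0 < ((d : ℝ) + 2) * (1 + 1 / (1 - Real.exp (-al d)) *
      Real.exp (-al d) * (1 + (d + 1) / (d + 2))) := by positivity
    linarith

/-- For every `k ≥ 2` there are distributions with `k + 1` bidders on which every `k`-lookahead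
mechanism earns at most an `e ^ (1 - 1 / k) / (1 + e ^ (1 - 1 / k)) + ε` fraction of the optimal
revenue. -/
theorem robust (k : ℕ) (hk : 2 ≤ k) (ε : ℝ) (hε : 0 < ε) :
    ∃ D : (Fin (k + 1) → ℝ) →₀ ℝ, IsDist D ∧ 0 < OPT D ∧ (∃ m, IsLookahead k D m) ∧
      ∀ m, IsLookahead k D m → lookRev k D m / OPT D ≤
        Real.exp (1 - 1 / k) / (1 + Real.exp (1 - 1 / k)) + ε := by
  obtain ⟨d, rfl⟩ : ∃ d, k = d + 2 := ⟨k - 2, by omega⟩
  have hal : (1 : ℝ) - 1 / ((d + 2 : ℕ) : ℝ) = al d := by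
    unfold al
    push_cast
    field_simp
    ring
  rw [hal]
  have h := (tendsto_bnd d).eventually (gt_mem_nhds
    (show Real.exp (al d) / (1 + Real.exp (al d)) <
      Real.exp (al d) / (1 + Real.exp (al d)) + ε by linarith))
  have h3 : 0 < 1 - Real.exp (-al d) := by linarith [exp_al_lt d]
  have h2 : ∀ᶠ N : ℕ in Filter.atTop, 1 + 1 / ((N : ℝ) + 1) < cc (qq d N) N := by
    have a1 : Filter.Tendsto (fun N : ℕ => 1 + 1 / ((N : ℝ) + 1)) Filter.atTop (nhds (1 + 0)) :=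
      tendsto_one_div_add_atTop_nhds_zero_nat.const_add 1
    refine a1.eventually_lt (tendsto_cc d) ?_
    rw [add_zero, lt_div_iff₀ h3]
    linarith [Real.exp_pos (-al d)]
  obtain ⟨N, hN1, hN2, hN3⟩ := (h.and (h2.and (Filter.eventually_ge_atTop 1))).exists
  obtain ⟨D, hD1, hD2, hD3, hD4⟩ := example_exists d N hN3 hN2
  exact ⟨D, hD1, hD2, hD3, fun M hM => (hD4 M hM).trans hN1.le⟩

theorem rho_le (k : ℕ) (hk : 2 ≤ k) :
    rho k ≤ Real.exp (1 - 1 / k) / (1 + Real.exp (1 - 1 / k)) := by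
  refine le_of_forall_pos_le_add fun ε hε => ?_
  obtain ⟨D, hD, hO, ⟨m, hm⟩, hall⟩ := robust k hk ε hε
  exact (csInf_le (rho_bddBelow k) ⟨_, D, m, hD, hO, hm, rfl⟩).trans (hall m hm)

end Pool.Agent.H49.Look2
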