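import Mathlib

/-!
# The parameters of the example (problem MP_0f9109_lc)
-/

open Finset

namespace Pool.Agent.H49.Look2

/-! ### The prices and the weights, for a ratio `0 < q < 1` -/

/-- `q ^ (N + 1)` -/
noncomputable def aa (q : ℝ) (N : ℕ) : ℝ := q ^ (N + 1)

/-- the inverse of the `i`-th price -/
noncomputable def s (q : ℝ) (N i : ℕ) : ℝ := 1 - aa q N / q ^ i

/-- the lowest price -/
noncomputable def cc (q : ℝ) (N : ℕ) : ℝ := 1 / (1 - aa q N)

/-- the `i`-th price -/
noncomputable def V (q : ℝ) (N i : ℕ) : ℝ := 1 / s q N i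

/-- the weight of the class `t` -/
noncomputable def mw (q : ℝ) (N t : ℕ) : ℝ := if t < N then q ^ t * (1 - q) else q ^ N

/-- the probability of the value `V q N i` in the class `j` -/
noncomputable def pr (q : ℝ) (N j i : ℕ) : ℝ :=
  if i < j then cc q N * (s q N i - s q N (i + 1)) else if i = j then cc q N * s q N j else 0

variable {q : ℝ} {N : ℕ}

lemma aa_pos (h0 : 0 < q) : 0 < aa q N := pow_pos h0 _

lemma aa_lt (h0 : 0 < q) (h1 : q < 1) : aa q N < 1 :=
  pow_lt_one₀ h0.le h1 (by omega)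

lemma cc_pos (h0 : 0 < q) (h1 : q < 1) : 0 < cc q N := by
  unfold cc
  have := aa_lt (N := N) h0 h1
  exact div_pos one_pos (by linarith)

lemma cc_mul (h0 : 0 < q) (h1 : q < 1) : cc q N * (1 - aa q N) = 1 := by
  unfold cc
  have := aa_lt (N := N) h0 h1
  exact one_div_mul_cancel (by linarith)

lemma s_zero : s q N 0 = 1 - aa q N := by simp [s]

lemma V_zero : V q N 0 = cc q N := by unfold V cc; rw [s_zero]

lemma cc_s_zero (h0 : 0 < q) (h1 : q < 1) : cc q N * s q N 0 = 1 := by
  rw [s_zero, cc_mul h0 h1]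

lemma s_sub (h0 : 0 < q) (i : ℕ) :
    s q N i - s q N (i + 1) = aa q N * (1 - q) / q ^ (i + 1) := by
  unfold s
  field_simp
  ring

lemma s_succ_lt (h0 : 0 < q) (h1 : q < 1) (i : ℕ) : s q N (i + 1) < s q N i := by
  have h := s_sub (N := N) h0 i
  have h3 := aa_pos (N := N) h0
  have : 0 < aa q N * (1 - q) / q ^ (i + 1) :=
    div_pos (mul_pos h3 (by linarith)) (pow_pos h0 _)
  linarith

lemma s_pos (h0 : 0 < q) (h1 : q < 1) {i : ℕ} (hi : i ≤ N) : 0 < s q N i := by
  unfold s aa
  have h3 : q ^ (N + 1) / q ^ i = q ^ (N + 1 - i) := by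
    rw [div_eq_iff (pow_pos h0 _).ne', ← pow_add]
    congr 1
    omega
  rw [h3]
  have : q ^ (N + 1 - i) < 1 := pow_lt_one₀ h0.le h1 (by omega)
  linarith

lemma s_lt_one (h0 : 0 < q) (i : ℕ) : s q N i < 1 := by
  unfold s
  have := div_pos (aa_pos (N := N) h0) (pow_pos h0 i)
  linarith

lemma V_pos (h0 : 0 < q) (h1 : q < 1) {i : ℕ} (hi : i ≤ N) : 0 < V q N i :=
  one_div_pos.mpr (s_pos h0 h1 hi)

lemma s_mul_V (h0 : 0 < q) (h1 : q < 1) {i : ℕ} (hi : i ≤ N) : s q N i * V q N i = 1 :=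
  mul_one_div_cancel (s_pos h0 h1 hi).ne'

lemma V_lt_succ (h0 : 0 < q) (h1 : q < 1) {i : ℕ} (hi : i + 1 ≤ N) :
    V q N i < V q N (i + 1) :=
  one_div_lt_one_div_of_lt (s_pos h0 h1 hi) (s_succ_lt h0 h1 i)

lemma V_lt (h0 : 0 < q) (h1 : q < 1) {i j : ℕ} (hij : i < j) (hj : j ≤ N) :
    V q N i < V q N j := by
  induction j with
  | zero => omega
  | succ j ih =>
    rcases Nat.lt_or_ge i j with h | h
    · exact (ih h (by omega)).trans (V_lt_succ h0 h1 hj)
    · have : i = j := by omega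
      subst this
      exact V_lt_succ h0 h1 hj

lemma cc_le_V (h0 : 0 < q) (h1 : q < 1) {i : ℕ} (hi : i ≤ N) : cc q N ≤ V q N i := by
  rcases Nat.eq_zero_or_pos i with rfl | h
  · rw [V_zero]
  · rw [← V_zero]
    exact (V_lt h0 h1 h hi).le

lemma mw_nonneg (h0 : 0 < q) (h1 : q < 1) (t : ℕ) : 0 ≤ mw q N t := by
  unfold mw
  split_ifs
  · exact mul_nonneg (pow_nonneg h0.le _) (by linarith)
  · exact pow_nonneg h0.le _

lemma pr_nonneg (h0 : 0 < q) (h1 : q < 1) {j : ℕ} (hj : j ≤ N) (i : ℕ) : 0 ≤ pr q N j i := by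
  unfold pr
  have h2 := cc_pos (N := N) h0 h1
  split_ifs
  · exact mul_nonneg h2.le (by linarith [s_succ_lt (N := N) h0 h1 i])
  · exact mul_nonneg h2.le (s_pos h0 h1 hj).le
  · exact le_rfl

/-- expectations in the class `j` -/
lemma pr_sum {j : ℕ} (hj : j ≤ N) (f : ℕ → ℝ) :
    ∑ i ∈ range (N + 1), pr q N j i * f i =
      ∑ i ∈ range j, cc q N * (s q N i - s q N (i + 1)) * f i + cc q N * s q N j * f j := by
  rw [← Finset.sum_subset (Finset.range_subset_range.mpr (show j + 1 ≤ N + 1 by omega)),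
    Finset.sum_range_succ]
  · congr 1
    · refine Finset.sum_congr rfl fun i hi => ?_
      unfold pr
      rw [if_pos (Finset.mem_range.mp hi)]
    · unfold pr
      rw [if_neg (lt_irrefl _), if_pos rfl]
  · intro i _ hi
    have h : j + 1 ≤ i := by
      by_contra hcon
      exact hi (Finset.mem_range.mpr (by omega))
    unfold pr
    rw [if_neg (by omega), if_neg (by omega), zero_mul]

lemma pr_total (h0 : 0 < q) (h1 : q < 1) {j : ℕ} (hj : j ≤ N) :
    ∑ i ∈ range (N + 1), pr q N j i = 1 := by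
  have h := pr_sum (q := q) hj (fun _ => 1)
  simp only [mul_one] at h
  rw [h, ← Finset.mul_sum, Finset.sum_range_sub', ← mul_add, sub_add_cancel, cc_s_zero h0 h1]

/-- the revenue from the rich bidder -/
lemma rich_le (h0 : 0 < q) (h1 : q < 1) (π X : ℕ → ℝ) (w : ℝ) (hπ : π 0 ≤ V q N 0 * X 0 - w)
    (hs : ∀ i, i < N → π (i + 1) - π i ≤ V q N (i + 1) * (X (i + 1) - X i)) {j : ℕ}
    (hj : j ≤ N) :
    ∑ i ∈ range (N + 1), pr q N j i * π i ≤ cc q N * X j - w := by
  rw [pr_sum hj]
  induction j with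
  | zero =>
    rw [Finset.sum_range_zero, zero_add, cc_s_zero h0 h1, one_mul]
    rwa [V_zero] at hπ
  | succ j ih =>
    have h2 := ih (by omega)
    have h3 := hs j (by omega)
    have h4 : 0 < cc q N * s q N (j + 1) := mul_pos (cc_pos h0 h1) (s_pos h0 h1 hj)
    have h5 := mul_le_mul_of_nonneg_left h3 h4.le
    have h6 : cc q N * s q N (j + 1) * (V q N (j + 1) * (X (j + 1) - X j)) =
        cc q N * (X (j + 1) - X j) := by
      have := s_mul_V h0 h1 hj
      linear_combination (cc q N * (X (j + 1) - X j)) * this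
    rw [h6] at h5
    rw [Finset.sum_range_succ]
    linarith

lemma coef_aux (h0 : 0 < q) (B : ℕ → ℝ) {n : ℕ} (hn : n ≤ N) :
    ∑ t ∈ range n, mw q N t * (∑ i ∈ range t, cc q N * (s q N i - s q N (i + 1)) * B i +
      cc q N * s q N t * B t) + q ^ n * ∑ i ∈ range n, cc q N * (s q N i - s q N (i + 1)) * B i =
      cc q N * ∑ t ∈ range n, mw q N t * B t := by
  induction n with
  | zero => simp
  | succ n ih =>
    have h1 := ih (by omega)
    rw [Finset.sum_range_succ,
      Finset.sum_range_succ (fun i => cc q N * (s q N i - s q N (i + 1)) * B i),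
      Finset.sum_range_succ (fun t => mw q N t * B t)]
    have hm : mw q N n = q ^ n * (1 - q) := by unfold mw; rw [if_pos (by omega)]
    have hs : q ^ (n + 1) * (s q N n - s q N (n + 1)) = aa q N * (1 - q) := by
      rw [s_sub h0, mul_div_cancel₀ _ (pow_pos h0 _).ne']
    have hsn : q ^ n * s q N n = q ^ n - aa q N := by
      unfold s
      rw [mul_sub, mul_div_cancel₀ _ (pow_pos h0 _).ne', mul_one]
    set A := ∑ i ∈ range n, cc q N * (s q N i - s q N (i + 1)) * B i with hA
    rw [hm]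
    have e : q ^ (n + 1) = q ^ n * q := pow_succ _ _
    linear_combination h1 + cc q N * B n * hs + cc q N * B n * (1 - q) * hsn + A * e

/-- the coefficients of the linear functional are not positive -/
lemma coef (h0 : 0 < q) (h1 : q < 1) (B : ℕ → ℝ) (hB : 0 ≤ B N) :
    ∑ t ∈ range (N + 1), mw q N t * ∑ i ∈ range (N + 1), pr q N t i * B i ≤
      cc q N * ∑ t ∈ range (N + 1), mw q N t * B t := by
  have h2 : ∑ t ∈ range (N + 1), mw q N t * ∑ i ∈ range (N + 1), pr q N t i * B i =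
      ∑ t ∈ range (N + 1), mw q N t * (∑ i ∈ range t, cc q N * (s q N i - s q N (i + 1)) * B i +
      cc q N * s q N t * B t) := by
    refine Finset.sum_congr rfl fun t ht => ?_
    rw [pr_sum (by have := Finset.mem_range.mp ht; omega)]
  rw [h2, Finset.sum_range_succ, Finset.sum_range_succ (fun t => mw q N t * B t)]
  have h3 := coef_aux h0 B (le_refl N)
  have hm : mw q N N = q ^ N := by unfold mw; rw [if_neg (lt_irrefl _)]
  rw [hm]
  have h4 : cc q N * s q N N * B N ≤ cc q N * B N := by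
    have := s_lt_one (N := N) h0 N
    have := cc_pos (N := N) h0 h1
    have h5 : 0 ≤ cc q N * B N := mul_nonneg this.le hB
    nlinarith
  have h5 := mul_le_mul_of_nonneg_left h4 (pow_pos h0 N).le
  nlinarith

lemma mw_total (q : ℝ) (N : ℕ) : ∑ t ∈ range (N + 1), mw q N t = 1 := by
  have h : ∀ n ≤ N, ∑ t ∈ range n, mw q N t = 1 - q ^ n := by
    intro n hn
    induction n with
    | zero => simp
    | succ n ih =>
      rw [Finset.sum_range_succ, ih (by omega)]
      unfold mw
      rw [if_pos (by omega), pow_succ]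
      ring
  rw [Finset.sum_range_succ, h N le_rfl]
  unfold mw
  rw [if_neg (lt_irrefl _)]
  ring

lemma opt_total (h0 : 0 < q) :
    ∑ t ∈ range (N + 1), mw q N t * (1 + cc q N * (1 - s q N t)) =
      1 + cc q N * aa q N * (1 + N * (1 - q)) := by
  have h : ∀ n ≤ N, ∑ t ∈ range n, mw q N t * (1 - s q N t) = n * (aa q N * (1 - q)) := by
    intro n hn
    induction n with
    | zero => simp
    | succ n ih =>
      rw [Finset.sum_range_succ, ih (by omega)]
      unfold mw s
      rw [if_pos (by omega)]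
      have := pow_pos h0 n
      push_cast
      field_simp
      ring
  have h1 : ∑ t ∈ range (N + 1), mw q N t * (1 - s q N t) = aa q N * (1 + N * (1 - q)) := by
    rw [Finset.sum_range_succ, h N le_rfl]
    unfold mw s
    rw [if_neg (lt_irrefl _)]
    have := (pow_pos h0 N).ne'
    have h3 : q ^ N * (1 - (1 - aa q N / q ^ N)) = aa q N := by field_simp; ring
    rw [h3]
    ring
  have h2 : ∑ t ∈ range (N + 1), mw q N t * (1 + cc q N * (1 - s q N t)) =
      ∑ t ∈ range (N + 1), mw q N t + cc q N * ∑ t ∈ range (N + 1), mw q N t * (1 - s q N t) := by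
    rw [Finset.mul_sum, ← Finset.sum_add_distrib]
    refine Finset.sum_congr rfl fun t _ => ?_
    ring
  rw [h2, mw_total, h1]
  ring

/-! ### The ratio `q = 1 - (1 - 1 / k) / N`, where `k = d + 2` -/

/-- the denominator of the ratio -/
def AA (d N : ℕ) : ℕ := (d + 2) * N

/-- the ratio -/
noncomputable def qq (d N : ℕ) : ℝ := 1 - (d + 1) / AA d N

lemma qq_pos {d N : ℕ} (hN : 1 ≤ N) : 0 < qq d N := by
  unfold qq AA
  have h : (1 : ℝ) ≤ N := by exact_mod_cast hN
  have h2 : (0 : ℝ) ≤ d := Nat.cast_nonneg d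
  rw [sub_pos, div_lt_one (by push_cast; positivity)]
  push_cast
  nlinarith

lemma qq_lt {d N : ℕ} (hN : 1 ≤ N) : qq d N < 1 := by
  unfold qq AA
  have h : (1 : ℝ) ≤ N := by exact_mod_cast hN
  have : (0 : ℝ) < ((d : ℝ) + 1) / ((d + 2) * N : ℕ) := by push_cast; positivity
  linarith

lemma N_mul {d N : ℕ} (hN : 1 ≤ N) : (N : ℝ) * (1 - qq d N) = (d + 1) / (d + 2) := by
  unfold qq AA
  have h : (1 : ℝ) ≤ N := by exact_mod_cast hN
  push_cast
  field_simp
  ring

/-- the number of residues in the class `t` -/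
def nn (d N t : ℕ) : ℕ :=
  if t < N then (AA d N - (d + 1)) ^ t * (d + 1) * AA d N ^ (N - t - 1)
  else (AA d N - (d + 1)) ^ N

lemma AA_pos {d N : ℕ} (hN : 1 ≤ N) : 0 < AA d N := Nat.mul_pos (by omega) hN

lemma AA_sub {d N : ℕ} (hN : 1 ≤ N) : ((AA d N - (d + 1) : ℕ) : ℝ) = AA d N * qq d N := by
  have h : d + 1 ≤ AA d N := by unfold AA; nlinarith
  have h2 : (0 : ℝ) < AA d N := by exact_mod_cast AA_pos hN
  rw [Nat.cast_sub h]
  unfold qq
  field_simp
  push_cast
  ring

lemma nn_eq {d N t : ℕ} (hN : 1 ≤ N) (ht : t ≤ N) :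
    (nn d N t : ℝ) = (AA d N : ℝ) ^ N * mw (qq d N) N t := by
  have h2 : (0 : ℝ) < AA d N := by exact_mod_cast AA_pos hN
  unfold nn mw
  split_ifs with h
  · push_cast
    rw [AA_sub hN, mul_pow]
    have h3 : (AA d N : ℝ) ^ N = AA d N ^ t * AA d N ^ (N - t - 1) * AA d N := by
      rw [← pow_add, ← pow_succ]
      congr 1
      omega
    have h4 : (AA d N : ℝ) * (1 - qq d N) = d + 1 := by
      unfold qq
      field_simp
      ring
    rw [h3]
    linear_combination (-(AA d N : ℝ) ^ t * AA d N ^ (N - t - 1) * qq d N ^ t) * h4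
  · have : t = N := by omega
    push_cast
    rw [AA_sub hN, mul_pow]

lemma nn_total {d N : ℕ} (hN : 1 ≤ N) : ∑ t ∈ range (N + 1), nn d N t = AA d N ^ N := by
  have h : ((∑ t ∈ range (N + 1), nn d N t : ℕ) : ℝ) = ((AA d N ^ N : ℕ) : ℝ) := by
    push_cast
    rw [Finset.sum_congr rfl fun t ht =>
      nn_eq hN (show t ≤ N by have := Finset.mem_range.mp ht; omega), ← Finset.mul_sum,
      mw_total, mul_one]
  exact_mod_cast h

/-- a map with prescribed sizes of the fibres -/
lemma exists_phi {d N : ℕ} (hN : 1 ≤ N) :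
    ∃ φ : ZMod (AA d N ^ N) → ℕ, (∀ r, φ r ≤ N) ∧
      ∀ [Fintype (ZMod (AA d N ^ N))] (G : ℕ → ℝ),
        ∑ r, G (φ r) = ∑ t ∈ range (N + 1), (nn d N t : ℝ) * G t := by
  classical
  haveI : NeZero (AA d N ^ N) := ⟨(pow_pos (AA_pos hN) N).ne'⟩
  have hc : Fintype.card (ZMod (AA d N ^ N)) =
      Fintype.card (Σ t : Fin (N + 1), Fin (nn d N t)) := by
    rw [ZMod.card, Fintype.card_sigma]
    simp only [Fintype.card_fin]
    rw [← nn_total hN, Finset.sum_range]
  let e := Fintype.equivOfCardEq hc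
  refine ⟨fun r => (e r).1, fun r => Nat.lt_succ_iff.mp (e r).1.2, ?_⟩
  intro inst G
  rw [Equiv.sum_comp e (fun x => G x.1), Fintype.sum_sigma, Finset.sum_range]
  refine Finset.sum_congr rfl fun t _ => ?_
  simp

lemma tendsto_aa (d : ℕ) : Filter.Tendsto (fun N => aa (qq d N) N) Filter.atTop
    (nhds (Real.exp (-((d + 1) / (d + 2))))) := by
  have h1 := Real.tendsto_one_add_div_pow_exp (-(((d : ℝ) + 1) / (d + 2)))
  have hq : Filter.Tendsto (fun N => qq d N) Filter.atTop (nhds 1) := by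
    have := (tendsto_one_div_atTop_nhds_zero_nat (𝕜 := ℝ)).const_mul (((d : ℝ) + 1) / (d + 2))
    have h := this.const_sub 1
    rw [mul_zero, sub_zero] at h
    refine h.congr fun N => ?_
    unfold qq AA
    push_cast
    rcases eq_or_ne (N : ℝ) 0 with h0 | h0
    · simp [h0]
    · field_simp
  have h2 := h1.mul hq
  rw [mul_one] at h2
  refine h2.congr fun N => ?_
  unfold aa
  rw [pow_succ]
  congr 2
  unfold qq AA
  push_cast
  rcases eq_or_ne (N : ℝ) 0 with h0 | h0
  · simp [h0]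
  · field_simp
    ring

end Pool.Agent.H49.Look2
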