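import Pool.Agent.H49.Look2.Upper

/-!
# The revenue of the mechanisms for the `k` highest bidders (problem MP_0f9109_lc)
-/

open Finset Function

namespace Pool.Agent.H49.Look2

open Pool.Agent.H49.Look

variable {d Q m N : ℕ} [NeZero Q] {q : ℝ} {φ : ZMod Q → ℕ}

/-- the averaging step: functions of the labels of the other bidders which do not see the class -/
lemma class_bound (h0 : 0 < q) (h1 : q < 1) (hφ : ∀ r, φ r ≤ N)
    (hsum : ∀ G : ℕ → ℝ, ∑ r, G (φ r) = Q * ∑ t ∈ range (N + 1), mw q N t * G t)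
    (i : Fin (d + 2)) (Y : ℕ → Lab d Q m → ℝ) (hY0 : ∀ u ≤ N, ∀ l, 0 ≤ Y u l) {E : ℝ}
    (hE : ∀ u ≤ N, ∀ t t' : ZMod Q, S i t (Y u) ≤ S i t' (Y u) + E) :
    ∑ l : Lab d Q m, (∑ u ∈ range (N + 1), pr q N (φ (cls i l)) u * Y u l -
      cc q N * Y (φ (cls i l)) l) ≤ Q * ((cc q N + 1) * E) := by
  have hcc := cc_pos (N := N) h0 h1
  have hsc := sum_classes i (fun (r : ZMod Q) (l : Lab d Q m) =>
    ∑ u ∈ range (N + 1), pr q N (φ r) u * Y u l + (-cc q N) * Y (φ r) l)
  have e1 : ∑ l : Lab d Q m, (∑ u ∈ range (N + 1), pr q N (φ (cls i l)) u * Y u l -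
      cc q N * Y (φ (cls i l)) l) = ∑ l : Lab d Q m,
      (∑ u ∈ range (N + 1), pr q N (φ (cls i l)) u * Y u l +
        (-cc q N) * Y (φ (cls i l)) l) := by
    refine Finset.sum_congr rfl fun l _ => ?_
    ring
  rw [e1, hsc]
  set B : ℕ → ℝ := fun u => S i 0 (Y u) with hB
  have hterm : ∀ r : ZMod Q, S i r (fun l : Lab d Q m =>
      ∑ u ∈ range (N + 1), pr q N (φ r) u * Y u l + (-cc q N) * Y (φ r) l) ≤
      (∑ u ∈ range (N + 1), pr q N (φ r) u * B u - cc q N * B (φ r)) + (cc q N + 1) * E := by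
    intro r
    rw [S_add, S_const_mul, S_sum (range (N + 1)) i r (fun u l => pr q N (φ r) u * Y u l)]
    have a1 : ∑ u ∈ range (N + 1), S i r (fun l => pr q N (φ r) u * Y u l) ≤
        ∑ u ∈ range (N + 1), pr q N (φ r) u * B u + E := by
      have h3 : ∑ u ∈ range (N + 1), pr q N (φ r) u * B u + E =
          ∑ u ∈ range (N + 1), pr q N (φ r) u * (B u + E) := by
        simp only [mul_add]
        rw [Finset.sum_add_distrib, ← Finset.sum_mul, pr_total h0 h1 (hφ r), one_mul]
      rw [h3]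
      refine Finset.sum_le_sum fun u hu => ?_
      rw [S_const_mul]
      exact mul_le_mul_of_nonneg_left (hE u (by have := Finset.mem_range.mp hu; omega) _ _)
        (pr_nonneg h0 h1 (hφ r) u)
    have a2 : B (φ r) ≤ S i r (fun l => Y (φ r) l) + E := hE (φ r) (hφ r) 0 r
    have a3 := mul_le_mul_of_nonneg_left a2 hcc.le
    linarith
  refine (Finset.sum_le_sum fun r _ => hterm r).trans ?_
  rw [Finset.sum_add_distrib, hsum (fun t => ∑ u ∈ range (N + 1), pr q N t u * B u -
    cc q N * B t), Finset.sum_const, Finset.card_univ, ZMod.card, nsmul_eq_mul]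
  have hc := coef h0 h1 B (S_nonneg i 0 (hY0 N le_rfl))
  have e2 : ∑ t ∈ range (N + 1), mw q N t * (∑ u ∈ range (N + 1), pr q N t u * B u -
      cc q N * B t) = ∑ t ∈ range (N + 1), mw q N t * ∑ u ∈ range (N + 1), pr q N t u * B u -
      cc q N * ∑ t ∈ range (N + 1), mw q N t * B t := by
    rw [Finset.mul_sum, ← Finset.sum_sub_distrib]
    refine Finset.sum_congr rfl fun t _ => ?_
    ring
  rw [e2]
  have hQ : (0 : ℝ) < Q := by exact_mod_cast Nat.pos_of_ne_zero (NeZero.ne Q)
  have h3 : (Q : ℝ) * (∑ t ∈ range (N + 1), mw q N t * ∑ u ∈ range (N + 1), pr q N t u * B u -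
      cc q N * ∑ t ∈ range (N + 1), mw q N t * B t) ≤ 0 :=
    mul_nonpos_of_nonneg_of_nonpos hQ.le (by linarith)
  linarith

/-- Every mechanism for the bidders other than the last one earns at most about
`beta * (d + 2) * cc`. -/
lemma rev_le (h0 : 0 < q) (h1 : q < 1) (hQ2 : 2 ≤ Q) (hφ : ∀ r, φ r ≤ N)
    (hsum : ∀ G : ℕ → ℝ, ∑ r, G (φ r) = Q * ∑ t ∈ range (N + 1), mw q N t * G t)
    {M : Mech (d + 3)} (hM : Valid (KK d) M) :
    ∑ v ∈ (DD d Q m N q φ).support, DD d Q m N q φ v * ∑ i ∈ KK d, M.p v i ≤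
      beta d N q * ((cc q N - 1) * (1 / (m + 1)) +
        (d + 2) * (cc q N + (cc q N + 3) * (1 / (m + 1)))) := by
  rw [DD_expect]
  have hVpos : ∀ u ≤ N, ∀ (i : Fin (d + 2)) (l : Lab d Q m), ∀ b, 0 < rich i (V q N u) l b :=
    fun u hu i l => rich_pos i (V_pos h0 h1 hu) l
  -- abbreviations
  set η : ℝ := 1 / ((m : ℝ) + 1) with hη
  have hη0 : 0 < η := by rw [hη]; positivity
  set x0 : Fin (d + 2) → Lab d Q m → ℝ := fun i l => M.x (poor l) i.castSucc with hx0
  set X : Fin (d + 2) → ℕ → Lab d Q m → ℝ := fun i u l =>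
    M.x (rich i (V q N u) l) i.castSucc with hX
  set P : Fin (d + 2) → ℕ → Lab d Q m → ℝ := fun i u l =>
    M.p (rich i (V q N u) l) i.castSucc with hP
  set x : Fin (d + 2) → ℕ → Fin (d + 2) → Lab d Q m → ℝ := fun i u j l =>
    M.x (rich i (V q N u) l) j.castSucc with hx
  set Y : Fin (d + 2) → ℕ → Lab d Q m → ℝ := fun i u l => ∑ j ∈ univ.erase i, x i u j l with hY
  have hcc := cc_gt (N := N) h0 h1
  have b0 : ∀ i l, 0 ≤ x0 i l := fun i l => (hM _ (poor_pos l)).1 _ (mem_KK i)
  have b1 : ∀ l, ∑ i, x0 i l ≤ 1 := by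
    intro l
    have := (hM _ (poor_pos l)).2.1
    rwa [sum_KK (fun b => M.x (poor l) b)] at this
  have b2 : ∀ i l, x0 i l ≤ 1 := fun i l => hM.x_le_one (poor_pos l) (mem_KK i)
  have c0 : ∀ i, ∀ u ≤ N, ∀ j l, 0 ≤ x i u j l :=
    fun i u hu j l => (hM _ (hVpos u hu i l)).1 _ (mem_KK j)
  have c1 : ∀ i, ∀ u ≤ N, ∀ j l, x i u j l ≤ 1 :=
    fun i u hu j l => hM.x_le_one (hVpos u hu i l) (mem_KK j)
  have c2 : ∀ i, ∀ u ≤ N, ∀ l, X i u l + Y i u l ≤ 1 := by
    intro i u hu l
    have := (hM _ (hVpos u hu i l)).2.1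
    rw [sum_KK (fun b => M.x (rich i (V q N u) l) b),
      ← Finset.add_sum_erase univ _ (mem_univ i)] at this
    exact this
  have c3 : ∀ i, ∀ u ≤ N, ∀ l, 0 ≤ Y i u l :=
    fun i u hu l => Finset.sum_nonneg fun j _ => c0 i u hu j l
  have c4 : ∀ i, ∀ u ≤ N, ∀ l, 0 ≤ X i u l := fun i u hu l => c0 i u hu i l
  have c5 : ∀ i, ∀ u ≤ N, ∀ l, Y i u l ≤ 1 := fun i u hu l => by
    linarith [c2 i u hu l, c4 i u hu l]
  -- payments at the profiles without a rich bidder
  have hpoor : ∀ l, ∑ b ∈ KK d, M.p (poor l) b ≤ ∑ i, x0 i l + η := by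
    intro l
    rw [sum_KK]
    have a1 : ∑ i : Fin (d + 2), M.p (poor l) i.castSucc ≤ (1 + η) * ∑ i, x0 i l := by
      rw [Finset.mul_sum]
      refine Finset.sum_le_sum fun i _ => ?_
      have a2 := hM.p_le (poor_pos l) (mem_KK i)
      rw [poor_cast] at a2
      have a3 := lam_le (l i)
      have a4 := b0 i l
      simp only [hx0] at a4 ⊢
      nlinarith
    have a5 := b1 l
    nlinarith
  -- payments at the profiles with a rich bidder
  have hrs : ∀ i, ∀ u ≤ N, ∀ l, ∑ b ∈ KK d, M.p (rich i (V q N u) l) b ≤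
      P i u l + (Y i u l + η) := by
    intro i u hu l
    rw [sum_KK, ← Finset.add_sum_erase univ _ (mem_univ i)]
    have a1 : ∑ j ∈ univ.erase i, M.p (rich i (V q N u) l) j.castSucc ≤ (1 + η) * Y i u l := by
      rw [hY, Finset.mul_sum]
      refine Finset.sum_le_sum fun j hj => ?_
      have a2 := hM.p_le (hVpos u hu i l) (mem_KK j)
      rw [rich_ne (Finset.mem_erase.mp hj).1] at a2
      have a3 := lam_le (l j)
      have a4 := c0 i u hu j l
      simp only [hx] at a4 ⊢
      nlinarith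
    have a5 := c5 i u hu l
    have a6 : η * Y i u l ≤ η := by nlinarith
    simp only [hP]
    linarith
  -- the payments of the rich bidder
  have hrich : ∀ i l, ∀ t ≤ N, ∑ u ∈ range (N + 1), pr q N t u * P i u l ≤
      cc q N * X i t l - (cc q N - 1 - η) * x0 i l := by
    intro i l t ht
    refine rich_le h0 h1 (fun u => P i u l) (fun u => X i u l) _ ?_ ?_ ht
    · have a1 := hM.truth (poor_pos l) (mem_KK i) (b := V q N 0) (c := lam d Q m (l i))
        (V_pos h0 h1 (by omega)) (lam_pos _)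
      have a2 : update (poor l) i.castSucc (lam d Q m (l i)) = poor l := by
        rw [← poor_cast l i, update_eq_self]
      have a3 : update (poor l) i.castSucc (V q N 0) = rich i (V q N 0) l := rfl
      rw [a2, a3] at a1
      have a4 := hM.p_le (poor_pos l) (mem_KK i)
      rw [poor_cast] at a4
      have a5 := lam_le (l i)
      have a6 := b0 i l
      rw [V_zero] at a1
      simp only [hP, hX, hx0, V_zero] at a6 ⊢
      nlinarith
    · intro u hu
      have a1 := hM.truth (hVpos u (by omega) i l) (mem_KK i) (b := V q N (u + 1))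
        (c := V q N u) (V_pos h0 h1 hu) (V_pos h0 h1 (by omega))
      simp only [rich_update] at a1
      simp only [hP, hX]
      linarith
  -- the small bidders do not see the class
  set E : ℝ := card d Q m / Q * η with hE
  have hcard := card_pos (d := d) (Q := Q) (m := m)
  have hQ : (0 : ℝ) < Q := by exact_mod_cast Nat.pos_of_ne_zero (NeZero.ne Q)
  have hcls : ∀ i, ∀ u ≤ N, ∀ t t' : ZMod Q, S i t (Y i u) ≤ S i t' (Y i u) + E := by
    intro i u hu t t'
    have a1 : ∀ j ∈ univ.erase i, S i t (x i u j) ≤ S i t' (x i u j) +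
        Q * (card d Q m / LL d Q m) := by
      intro j hj
      have hji := (Finset.mem_erase.mp hj).1
      refine cyc (fun t => S i t (x i u j)) (by have := LL_pos d Q m; positivity)
        (fun t => ?_) t _
      refine S_step hji (x i u j) (fun l => ?_) t
      by_cases hl : l j = -1
      · rw [if_pos hl]
        have := c1 i u hu j l
        have := c0 i u hu j (l + Pi.single j 1)
        linarith
      · rw [if_neg hl, add_zero]
        have a4 := hM.mono (hVpos u hu i l) (mem_KK j) (lam_pos (l j)) (lam_succ hQ2 _ hl).le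
        rw [rich_shift hji] at a4
        have a5 : update (rich i (V q N u) l) j.castSucc (lam d Q m (l j)) =
            rich i (V q N u) l := by
          rw [← rich_ne hji (V q N u) l, update_eq_self]
        rw [a5] at a4
        exact a4
    have a2 : S i t (Y i u) = ∑ j ∈ univ.erase i, S i t (x i u j) :=
      S_sum (univ.erase i) i t (fun j => x i u j)
    have a3 : S i t' (Y i u) = ∑ j ∈ univ.erase i, S i t' (x i u j) :=
      S_sum (univ.erase i) i t' (fun j => x i u j)
    rw [a2, a3]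
    refine (Finset.sum_le_sum a1).trans ?_
    rw [Finset.sum_add_distrib]
    refine add_le_add le_rfl (le_of_eq ?_)
    rw [Finset.sum_const, Finset.card_erase_of_mem (mem_univ i), Finset.card_univ,
      Fintype.card_fin, nsmul_eq_mul, hE, hη]
    have h6 : (LL d Q m : ℝ) = Q * ((d + 1) * Q * (m + 1)) := by
      unfold LL; push_cast; ring
    rw [h6]
    have : (0 : ℝ) < (d : ℝ) + 1 := by positivity
    have : (0 : ℝ) < (m : ℝ) + 1 := by positivity
    have e : ((d + 2 - 1 : ℕ) : ℝ) = d + 1 := by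
      rw [show d + 2 - 1 = d + 1 by omega]; push_cast; ring
    rw [e]
    field_simp
  -- the bidder `i`
  have hi : ∀ i, ∑ l : Lab d Q m, ∑ u ∈ range (N + 1), pr q N (φ (cls i l)) u *
      (P i u l + (Y i u l + η)) ≤ card d Q m * (cc q N + (cc q N + 3) * η) -
        (cc q N - 1) * ∑ l, x0 i l := by
    intro i
    have a1 : ∀ l : Lab d Q m, ∑ u ∈ range (N + 1), pr q N (φ (cls i l)) u *
        (P i u l + (Y i u l + η)) ≤ (cc q N + 2 * η) + (-(cc q N - 1)) * x0 i l +
        (∑ u ∈ range (N + 1), pr q N (φ (cls i l)) u * Y i u l -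
          cc q N * Y i (φ (cls i l)) l) := by
      intro l
      have a2 := hrich i l (φ (cls i l)) (hφ _)
      have a3 : ∑ u ∈ range (N + 1), pr q N (φ (cls i l)) u * (P i u l + (Y i u l + η)) =
          ∑ u ∈ range (N + 1), pr q N (φ (cls i l)) u * P i u l +
          (∑ u ∈ range (N + 1), pr q N (φ (cls i l)) u * Y i u l +
            (∑ u ∈ range (N + 1), pr q N (φ (cls i l)) u) * η) := by
        rw [Finset.sum_mul, ← Finset.sum_add_distrib, ← Finset.sum_add_distrib]
        refine Finset.sum_congr rfl fun u _ => ?_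
        ring
      rw [a3, pr_total h0 h1 (hφ _)]
      have a4 : cc q N * X i (φ (cls i l)) l ≤ cc q N * (1 - Y i (φ (cls i l)) l) :=
        mul_le_mul_of_nonneg_left (by linarith [c2 i _ (hφ (cls i l)) l]) (by linarith)
      have a5 : η * x0 i l ≤ η := by
        have := b2 i l
        nlinarith
      nlinarith
    refine (Finset.sum_le_sum fun l _ => a1 l).trans ?_
    rw [Finset.sum_add_distrib, Finset.sum_add_distrib, Finset.sum_const, Finset.card_univ,
      nsmul_eq_mul, ← Finset.mul_sum]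
    have a6 := class_bound h0 h1 hφ hsum i (Y i) (c3 i) (hcls i)
    have a7 : (Q : ℝ) * ((cc q N + 1) * E) = card d Q m * ((cc q N + 1) * η) := by
      rw [hE]; field_simp
    rw [a7] at a6
    have a8 : (Fintype.card (Lab d Q m) : ℝ) = card d Q m := rfl
    rw [a8]
    linarith
  -- all together
  have hall : ∀ l : Lab d Q m, wP d Q m N q * ∑ b ∈ KK d, M.p (poor l) b +
      ∑ i : Fin (d + 2), ∑ u ∈ range (N + 1), wR N q φ i u l *
        ∑ b ∈ KK d, M.p (rich i (V q N u) l) b ≤
      beta d N q / card d Q m * ((cc q N - 1) * (∑ i, x0 i l + η) +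
        ∑ i : Fin (d + 2), ∑ u ∈ range (N + 1), pr q N (φ (cls i l)) u *
          (P i u l + (Y i u l + η))) := by
    intro l
    rw [mul_add (beta d N q / card d Q m)]
    refine add_le_add ?_ ?_
    · have a1 := mul_le_mul_of_nonneg_left (hpoor l) (wP_nonneg (d := d) (Q := Q) (m := m)
        (N := N) h0 h1)
      refine a1.trans (le_of_eq ?_)
      unfold wP
      ring
    · rw [Finset.mul_sum]
      refine Finset.sum_le_sum fun i _ => ?_
      rw [Finset.mul_sum]
      refine Finset.sum_le_sum fun u hu => ?_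
      have a1 := mul_le_mul_of_nonneg_left
        (hrs i u (by have := Finset.mem_range.mp hu; omega) l) (wR_nonneg h0 h1 hφ i u l)
      refine a1.trans (le_of_eq ?_)
      unfold wR
      ring
  refine (Finset.sum_le_sum fun l _ => hall l).trans ?_
  rw [← Finset.mul_sum, Finset.sum_add_distrib, ← Finset.mul_sum, Finset.sum_add_distrib,
    Finset.sum_const, Finset.card_univ, nsmul_eq_mul]
  have a8 : (Fintype.card (Lab d Q m) : ℝ) = card d Q m := rfl
  rw [a8, Finset.sum_comm (f := fun (l : Lab d Q m) (i : Fin (d + 2)) =>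
    ∑ u ∈ range (N + 1), pr q N (φ (cls i l)) u * (P i u l + (Y i u l + η))),
    Finset.sum_comm (f := fun (l : Lab d Q m) (i : Fin (d + 2)) => x0 i l)]
  have a9 := Finset.sum_le_sum (s := (univ : Finset (Fin (d + 2)))) fun i _ => hi i
  rw [Finset.sum_sub_distrib, Finset.sum_const, Finset.card_univ, Fintype.card_fin,
    nsmul_eq_mul, ← Finset.mul_sum] at a9
  push_cast at a9
  have hb : 0 ≤ beta d N q / card d Q m := (div_pos (beta_pos h0 h1) hcard).le
  refine (mul_le_mul_of_nonneg_left (add_le_add le_rfl a9) hb).trans (le_of_eq ?_)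
  field_simp
  ring

end Pool.Agent.H49.Look2
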