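import Pool.Agent.H49.Look.Defs
import Pool.Agent.H49.Look2.Params
import Pool.Agent.H49.Look2.Labels

/-!
# The example (problem MP_0f9109_lc)

There are `k + 1 = d + 3` bidders. The last bidder always has the value `1`. The other `k` bidders
have values slightly above `1` which encode labels, except that with some probability one of them
is rich; the distribution of her value depends on a class which is a function of the residue
`cls i l` of the labels of the others.
-/

open Finset Function

namespace Pool.Agent.H49.Look2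

open Pool.Agent.H49.Look

/-! ### The bidders and the profiles -/

/-- the set of all bidders but the last -/
def KK (d : ℕ) : Finset (Fin (d + 3)) := univ.erase (Fin.last (d + 2))

lemma mem_KK {d : ℕ} (j : Fin (d + 2)) : j.castSucc ∈ KK d :=
  Finset.mem_erase.mpr ⟨Fin.castSucc_ne_last j, Finset.mem_univ _⟩

lemma sum_KK {d : ℕ} (f : Fin (d + 3) → ℝ) :
    ∑ i ∈ KK d, f i = ∑ j : Fin (d + 2), f j.castSucc := by
  have h := Finset.add_sum_erase univ f (mem_univ (Fin.last (d + 2)))
  rw [Fin.sum_univ_castSucc] at h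
  unfold KK
  linarith

variable {d Q m N : ℕ} [NeZero Q] {q : ℝ}

/-- the profile without a rich bidder -/
noncomputable def poor (l : Lab d Q m) : Fin (d + 3) → ℝ :=
  Fin.snoc (α := fun _ => ℝ) (fun j => lam d Q m (l j)) 1

/-- the profile with the rich bidder `i` of value `h` -/
noncomputable def rich (i : Fin (d + 2)) (h : ℝ) (l : Lab d Q m) : Fin (d + 3) → ℝ :=
  update (poor l) i.castSucc h

omit [NeZero Q] in
@[simp] lemma poor_cast (l : Lab d Q m) (j : Fin (d + 2)) :
    poor l j.castSucc = lam d Q m (l j) := by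
  simp [poor]

omit [NeZero Q] in
@[simp] lemma poor_last (l : Lab d Q m) : poor l (Fin.last (d + 2)) = 1 := by
  simp [poor]

omit [NeZero Q] in
@[simp] lemma rich_self (i : Fin (d + 2)) (h : ℝ) (l : Lab d Q m) :
    rich i h l i.castSucc = h := by
  simp [rich]

omit [NeZero Q] in
lemma rich_ne {i j : Fin (d + 2)} (hij : j ≠ i) (h : ℝ) (l : Lab d Q m) :
    rich i h l j.castSucc = lam d Q m (l j) := by
  unfold rich
  rw [update_of_ne (fun e => hij (Fin.castSucc_injective _ e)), poor_cast]

omit [NeZero Q] in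
@[simp] lemma rich_last (i : Fin (d + 2)) (h : ℝ) (l : Lab d Q m) :
    rich i h l (Fin.last (d + 2)) = 1 := by
  unfold rich
  rw [update_of_ne (Fin.castSucc_ne_last i).symm, poor_last]

omit [NeZero Q] in
lemma rich_update (i : Fin (d + 2)) (h h' : ℝ) (l : Lab d Q m) :
    update (rich i h l) i.castSucc h' = rich i h' l := by
  unfold rich
  rw [update_idem]

/-- every bidder is one of the `d + 2` first or the last one -/
lemma cases_bidder (i : Fin (d + 3)) : (∃ j : Fin (d + 2), i = j.castSucc) ∨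
    i = Fin.last (d + 2) := by
  refine Fin.lastCases (Or.inr rfl) (fun j => Or.inl ⟨j, rfl⟩) i

omit [NeZero Q] in
lemma poor_shift (l : Lab d Q m) (j : Fin (d + 2)) :
    update (poor l) j.castSucc (lam d Q m (l j + 1)) = poor (l + Pi.single j 1) := by
  funext i
  rcases cases_bidder i with ⟨b, rfl⟩ | rfl
  · rcases eq_or_ne b j with rfl | hb
    · rw [update_self, poor_cast, Pi.add_apply, Pi.single_eq_same]
    · rw [update_of_ne (fun e => hb (Fin.castSucc_injective _ e)), poor_cast, poor_cast,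
        Pi.add_apply, Pi.single_eq_of_ne hb, add_zero]
  · rw [update_of_ne (Fin.castSucc_ne_last j).symm, poor_last, poor_last]

omit [NeZero Q] in
lemma rich_shift {i j : Fin (d + 2)} (hij : j ≠ i) (h : ℝ) (l : Lab d Q m) :
    update (rich i h l) j.castSucc (lam d Q m (l j + 1)) = rich i h (l + Pi.single j 1) := by
  unfold rich
  rw [update_comm (fun e => hij (Fin.castSucc_injective _ e).symm), poor_shift]

lemma poor_pos (l : Lab d Q m) : ∀ b, 0 < poor l b := by
  intro b
  rcases cases_bidder b with ⟨b, rfl⟩ | rfl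
  · rw [poor_cast]; exact lam_pos _
  · rw [poor_last]; norm_num

lemma rich_pos (i : Fin (d + 2)) {h : ℝ} (hh : 0 < h) (l : Lab d Q m) :
    ∀ b, 0 < rich i h l b := by
  intro b
  unfold rich
  exact update_pos (poor_pos l) _ hh b

/-! ### The distribution -/

/-- the normalisation -/
noncomputable def beta (d N : ℕ) (q : ℝ) : ℝ := 1 / ((d + 2) + (cc q N - 1))

lemma cc_gt (h0 : 0 < q) (h1 : q < 1) : 1 < cc q N := by
  have h := cc_mul (N := N) h0 h1
  have h2 := aa_pos (N := N) h0
  have h3 := cc_pos (N := N) h0 h1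
  nlinarith

lemma beta_pos (h0 : 0 < q) (h1 : q < 1) : 0 < beta d N q := by
  unfold beta
  have := cc_gt (N := N) h0 h1
  have h2 : (0 : ℝ) ≤ d := Nat.cast_nonneg d
  have : (0 : ℝ) < (d + 2) + (cc q N - 1) := by linarith
  positivity

/-- the weight of the profile without a rich bidder -/
noncomputable def wP (d Q m N : ℕ) [NeZero Q] (q : ℝ) : ℝ :=
  beta d N q * (cc q N - 1) / card d Q m

/-- the weight of the profile with the rich bidder `i` of value `V q N u` -/
noncomputable def wR (N : ℕ) (q : ℝ) (φ : ZMod Q → ℕ) (i : Fin (d + 2)) (u : ℕ)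
    (l : Lab d Q m) : ℝ :=
  beta d N q / card d Q m * pr q N (φ (cls i l)) u

/-- the distribution of the example -/
noncomputable def DD (d Q m N : ℕ) [NeZero Q] (q : ℝ) (φ : ZMod Q → ℕ) :
    (Fin (d + 3) → ℝ) →₀ ℝ :=
  ∑ l : Lab d Q m, (Finsupp.single (poor l) (wP d Q m N q) +
    ∑ i : Fin (d + 2), ∑ u ∈ range (N + 1),
      Finsupp.single (rich i (V q N u) l) (wR N q φ i u l))

variable {φ : ZMod Q → ℕ}

lemma wP_nonneg (h0 : 0 < q) (h1 : q < 1) : 0 ≤ wP d Q m N q := by
  unfold wP
  have a1 := card_pos (d := d) (Q := Q) (m := m)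
  have a2 := beta_pos (d := d) (N := N) h0 h1
  have a3 := cc_gt (N := N) h0 h1
  have a4 : 0 < cc q N - 1 := by linarith
  positivity

lemma wR_nonneg (h0 : 0 < q) (h1 : q < 1) (hφ : ∀ r, φ r ≤ N) (i : Fin (d + 2)) (u : ℕ)
    (l : Lab d Q m) : 0 ≤ wR N q φ i u l := by
  unfold wR
  have a1 := card_pos (d := d) (Q := Q) (m := m)
  have a2 := beta_pos (d := d) (N := N) h0 h1
  have a3 := pr_nonneg (N := N) h0 h1 (hφ (cls i l)) u
  positivity

lemma DD_apply (v : Fin (d + 3) → ℝ) : DD d Q m N q φ v = ∑ l : Lab d Q m,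
    (Finsupp.single (poor l) (wP d Q m N q) v + ∑ i : Fin (d + 2), ∑ u ∈ range (N + 1),
      Finsupp.single (rich i (V q N u) l) (wR N q φ i u l) v) := by
  unfold DD
  rw [Finsupp.finsetSum_apply]
  refine Finset.sum_congr rfl fun g _ => ?_
  rw [Finsupp.add_apply, Finsupp.finsetSum_apply]
  congr 1
  refine Finset.sum_congr rfl fun i _ => ?_
  rw [Finsupp.finsetSum_apply]

lemma DD_expect (F : (Fin (d + 3) → ℝ) → ℝ) :
    ∑ v ∈ (DD d Q m N q φ).support, DD d Q m N q φ v * F v =
      ∑ l : Lab d Q m, (wP d Q m N q * F (poor l) + ∑ i : Fin (d + 2), ∑ u ∈ range (N + 1),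
        wR N q φ i u l * F (rich i (V q N u) l)) := by
  have h1 : Finsupp.linearCombination ℝ F (DD d Q m N q φ) =
      ∑ v ∈ (DD d Q m N q φ).support, DD d Q m N q φ v * F v := rfl
  rw [← h1]
  unfold DD
  rw [map_sum]
  refine Finset.sum_congr rfl fun g _ => ?_
  rw [map_add, map_sum, Finsupp.linearCombination_single]
  congr 1
  refine Finset.sum_congr rfl fun i _ => ?_
  rw [map_sum]
  refine Finset.sum_congr rfl fun u _ => ?_
  rw [Finsupp.linearCombination_single]
  rfl

lemma DD_support {v : Fin (d + 3) → ℝ} (hv : v ∈ (DD d Q m N q φ).support) :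
    ∃ l : Lab d Q m, v = poor l ∨ ∃ (i : Fin (d + 2)) (u : ℕ), u ≤ N ∧ v = rich i (V q N u) l := by
  classical
  by_contra hcon
  push Not at hcon
  refine (Finsupp.mem_support_iff.mp hv) ?_
  rw [DD_apply]
  refine Finset.sum_eq_zero fun l _ => ?_
  rw [Finsupp.single_eq_of_ne (hcon l).1, zero_add]
  refine Finset.sum_eq_zero fun i _ => Finset.sum_eq_zero fun u hu => ?_
  rw [Finsupp.single_eq_of_ne ((hcon l).2 i u (by have := Finset.mem_range.mp hu; omega))]

lemma DD_isDist (h0 : 0 < q) (h1 : q < 1) (hφ : ∀ r, φ r ≤ N) : IsDist (DD d Q m N q φ) := by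
  classical
  refine ⟨?_, ?_, ?_⟩
  · intro v
    rw [DD_apply]
    refine Finset.sum_nonneg fun g _ => add_nonneg ?_
      (Finset.sum_nonneg fun i _ => Finset.sum_nonneg fun u _ => ?_)
    · rw [Finsupp.single_apply]
      split_ifs
      · exact wP_nonneg h0 h1
      · exact le_rfl
    · rw [Finsupp.single_apply]
      split_ifs
      · exact wR_nonneg h0 h1 hφ _ _ _
      · exact le_rfl
  · have h := DD_expect (d := d) (Q := Q) (m := m) (N := N) (q := q) (φ := φ) (fun _ => 1)
    simp only [mul_one] at h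
    rw [h]
    have h2 : ∀ l : Lab d Q m, ∀ i : Fin (d + 2), ∑ u ∈ range (N + 1), wR N q φ i u l =
        beta d N q / card d Q m := by
      intro l i
      unfold wR
      rw [← Finset.mul_sum, pr_total h0 h1 (hφ _), mul_one]
    simp only [h2]
    rw [Finset.sum_const, Finset.sum_const, Finset.card_univ, Finset.card_univ, Fintype.card_fin]
    have h3 : (Fintype.card (Lab d Q m) : ℝ) = card d Q m := rfl
    rw [nsmul_eq_mul, nsmul_eq_mul, h3]
    have h4 := card_pos (d := d) (Q := Q) (m := m)
    have h5 := cc_gt (N := N) h0 h1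
    have h6 : (0 : ℝ) ≤ d := Nat.cast_nonneg d
    have h7 : (0 : ℝ) < (d + 2) + (cc q N - 1) := by linarith
    unfold wP beta
    push_cast
    field_simp
    ring
  · intro v hv b
    obtain ⟨l, rfl | ⟨i, u, hu, rfl⟩⟩ := DD_support hv
    · exact poor_pos l b
    · exact rich_pos i (V_pos h0 h1 hu) l b

lemma DD_last {v : Fin (d + 3) → ℝ} (hv : v ∈ (DD d Q m N q φ).support) :
    v (Fin.last (d + 2)) = 1 := by
  obtain ⟨l, rfl | ⟨i, u, hu, rfl⟩⟩ := DD_support hv
  · exact poor_last l
  · exact rich_last _ _ _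

lemma DD_gt (h0 : 0 < q) (h1 : q < 1) {v : Fin (d + 3) → ℝ}
    (hv : v ∈ (DD d Q m N q φ).support) {b : Fin (d + 3)} (hb : b ≠ Fin.last (d + 2)) :
    1 < v b := by
  obtain ⟨j, rfl⟩ | hb' := cases_bidder b
  swap
  · exact absurd hb' hb
  obtain ⟨l, rfl | ⟨i, u, hu, rfl⟩⟩ := DD_support hv
  · rw [poor_cast]; exact lam_gt _
  · rcases eq_or_ne j i with rfl | hj
    · rw [rich_self]
      exact (cc_gt h0 h1).trans_le (cc_le_V h0 h1 hu)
    · rw [rich_ne hj]; exact lam_gt _

lemma top_of {v : Fin (d + 3) → ℝ} (h1 : v (Fin.last (d + 2)) = 1)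
    (h : ∀ b, b ≠ Fin.last (d + 2) → 1 < v b) : top (d + 2) v = KK d := by
  classical
  ext i
  simp only [top, KK, Finset.mem_filter, Finset.mem_univ, true_and, Finset.mem_erase, and_true]
  constructor
  · rintro hlt rfl
    refine absurd hlt (not_lt.mpr ?_)
    have hc : (univ.erase (Fin.last (d + 2))).card = d + 2 := by
      rw [Finset.card_erase_of_mem (Finset.mem_univ _), Finset.card_univ, Fintype.card_fin]
      rfl
    refine hc.symm.le.trans (Finset.card_le_card ?_)
    intro j hj
    simp only [Finset.mem_filter, Finset.mem_univ, true_and]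
    left
    rw [h1]
    exact h j (Finset.mem_erase.mp hj).1
  · intro hi
    have : (univ.filter fun j => v i < v j ∨
        (v j = v i ∧ j < i)) ⊆ (univ.erase (Fin.last (d + 2))).erase i := by
      intro j hj
      simp only [Finset.mem_filter, Finset.mem_univ, true_and] at hj
      have hgt := h i hi
      simp only [Finset.mem_erase, Finset.mem_univ, and_true]
      refine ⟨?_, ?_⟩
      · rintro rfl
        rcases hj with hj | hj
        · exact lt_irrefl _ hj
        · exact lt_irrefl _ hj.2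
      · rintro rfl
        rw [h1] at hj
        rcases hj with hj | hj
        · linarith
        · linarith [hj.1]
    have h2 := Finset.card_le_card this
    rw [Finset.card_erase_of_mem (Finset.mem_erase.mpr ⟨hi, Finset.mem_univ _⟩),
      Finset.card_erase_of_mem (Finset.mem_univ _), Finset.card_univ, Fintype.card_fin] at h2
    omega

lemma top_DD (h0 : 0 < q) (h1 : q < 1) {v : Fin (d + 3) → ℝ}
    (hv : v ∈ (DD d Q m N q φ).support) : top (d + 2) v = KK d :=
  top_of (DD_last hv) fun _ hb => DD_gt h0 h1 hv hb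

lemma cell_DD (h0 : 0 < q) (h1 : q < 1) {v : Fin (d + 3) → ℝ}
    (hv : v ∈ (DD d Q m N q φ).support) :
    cell (DD d Q m N q φ) (KK d) v = (DD d Q m N q φ).support := by
  classical
  refine Finset.filter_true_of_mem fun u hu => ?_
  have hK : ∀ j : Fin (d + 3), j ∉ KK d → j = Fin.last (d + 2) := by
    intro j hj
    by_contra hne
    exact hj (Finset.mem_erase.mpr ⟨hne, Finset.mem_univ _⟩)
  refine ⟨?_, ?_⟩
  · intro j hj
    rw [hK j hj, DD_last hu, DD_last hv]
  · intro i hi j hj
    rw [hK j hj, DD_last hv]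
    exact (DD_gt h0 h1 hu (Finset.mem_erase.mp hi).1).le

lemma DD_nonempty (h0 : 0 < q) (h1 : q < 1) (hφ : ∀ r, φ r ≤ N) :
    (DD d Q m N q φ).support.Nonempty := by
  by_contra hcon
  rw [Finset.not_nonempty_iff_eq_empty] at hcon
  have := (DD_isDist (d := d) (m := m) h0 h1 hφ).2.1
  rw [hcon] at this
  simp at this

lemma exists_look_DD (h0 : 0 < q) (h1 : q < 1) (hφ : ∀ r, φ r ≤ N) :
    ∃ M : Finset (Fin (d + 3)) → Mech (d + 3), IsLookahead (d + 2) (DD d Q m N q φ) M := by
  obtain ⟨v₀, hv₀⟩ := DD_nonempty (d := d) (m := m) h0 h1 hφ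
  refine exists_lookahead (DD_isDist h0 h1 hφ) ⟨KK d, v₀, fun v hv => ⟨top_DD h0 h1 hv, ?_⟩⟩
  rw [cell_DD h0 h1 hv, cell_DD h0 h1 hv₀]

end Pool.Agent.H49.Look2
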